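import Mathlib
import Pool.Agent.H94.IC.Targets3

/-!
# Insulating cracks, module CTR: contraction of the energy on a subspace of finite codimension
-/

open MeasureTheory Set Filter Topology Metric
open scoped ENNReal NNReal ContDiff RealInnerProductSpace

namespace Pool.Agent.H32.IC

open Pool.Agent.H94.IC

namespace CTR

theorem nrm {F : Type*} [NormedAddCommGroup F] [NormedSpace ℝ F] (f : F → ℝ) (T : F ≃ₗᵢ[ℝ] F)
    (y : F) : ‖fderiv ℝ (fun z => f (T z)) y‖ = ‖fderiv ℝ f (T y)‖ := by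
  have h : fderiv ℝ (fun z => f (T z)) y =
      (fderiv ℝ f (T y)).comp (T.toLinearIsometry.toContinuousLinearMap) :=
    T.toContinuousLinearEquiv.comp_right_fderiv (f := f) (x := y)
  rw [h]
  exact ContinuousLinearMap.opNorm_comp_linearIsometryEquiv _ _

theorem norm_gr (f : E → ℝ) (x : E) : ‖gr f x‖ = ‖fderiv ℝ f x‖ := by
  simp [gr, gradient]

theorem norm_gr_comp (f : E → ℝ) (T : E ≃ₗᵢ[ℝ] E) (y : E) :
    ‖gr (fun z => f (T.symm z)) y‖ = ‖gr f (T.symm y)‖ := by
  rw [norm_gr, norm_gr, nrm]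

theorem setInt (T : E ≃ₗᵢ[ℝ] E) (f : E → ℝ) (s : Set E) :
    ∫ y in T.symm ⁻¹' s, f (T.symm y) = ∫ x in s, f x :=
  (T.symm.measurePreserving).setIntegral_preimage_emb
    T.symm.toHomeomorph.measurableEmbedding f s

theorem intOn (T : E ≃ₗᵢ[ℝ] E) (f : E → ℝ) (s : Set E) (h : IntegrableOn f s) :
    IntegrableOn (fun y => f (T.symm y)) (T.symm ⁻¹' s) :=
  ((T.symm.measurePreserving).integrableOn_comp_preimage
    T.symm.toHomeomorph.measurableEmbedding).2 h

theorem frontier_ne (Ω : Set E) (hO : Dom Ω) : (frontier Ω).Nonempty := by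
  by_contra hne
  rw [Set.not_nonempty_iff_eq_empty] at hne
  have hcl : IsClopen Ω := isClopen_iff_frontier_eq_empty.2 hne
  rcases isClopen_iff.1 hcl with h | h
  · exact hO.conn.nonempty.ne_empty h
  · have hb := hO.bdd
    rw [h] at hb
    exact NormedSpace.unbounded_univ ℝ E hb

end CTR

open CTR in
theorem ctr (hCEL : T_CEL) : T_CTR := by
  intro Ω C hO hC
  have hfr : IsCompact (frontier Ω) := by
    refine Metric.isCompact_of_isClosed_isBounded isClosed_frontier ?_
    exact hO.bdd.closure.subset frontier_subset_closure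
  choose! T r L g hr hL hx using hO.lip
  obtain ⟨t, ht, hcov⟩ := hfr.elim_nhds_subcover (fun q => ball q (r q / 2))
    (fun q hq => ball_mem_nhds q (half_pos (hr q hq)))
  have hne := frontier_ne Ω hO
  have htne : t.Nonempty := by
    obtain ⟨y, hy⟩ := hne
    have := hcov hy
    simp only [mem_iUnion] at this
    obtain ⟨q, hq, _⟩ := this
    exact ⟨q, hq⟩
  set r0 : ℝ := t.inf' htne (fun q => r q / 4) with hr0
  have hr0pos : 0 < r0 := by
    rw [hr0, Finset.lt_inf'_iff]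
    intro q hq
    have := hr q (ht q hq)
    positivity
  set L0 : ℝ≥0 := t.sup L with hL0
  set δ : ℝ := (1 / 256) / Real.sqrt C with hδ
  have hsC : 0 < Real.sqrt C := Real.sqrt_pos.2 hC
  have hδpos : 0 < δ := by positivity
  have hCδ : C * δ ^ 2 = (1 / 256) ^ 2 := by
    rw [hδ, div_pow, Real.sq_sqrt hC.le]
    field_simp
  obtain ⟨m, hm⟩ := hCEL L0 δ hδpos
  refine ⟨m, r0, hr0pos, ?_⟩
  intro x0 ρ hx0 hρ hρr
  obtain ⟨y, hy, hxy⟩ := (infDist_lt_iff hne).1 hx0
  have hy2 := hcov hy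
  simp only [mem_iUnion] at hy2
  obtain ⟨q, hq, hyq⟩ := hy2
  have hqf := ht q hq
  have hr0q : r0 ≤ r q / 4 := Finset.inf'_le _ hq
  have hball : ball x0 ρ ⊆ ball q (r q) := by
    intro z hz
    rw [mem_ball] at hz hyq ⊢
    have h1 : dist z q ≤ dist z x0 + dist x0 y + dist y q := dist_triangle4 _ _ _ _
    linarith
  obtain ⟨B', hB', hv'⟩ := hm (g q) (T q x0) ρ ((hL q hqf).weaken (Finset.le_sup hq)) hρ
  -- the sets
  have hset : ∀ s : ℝ, s ≤ ρ → {x : E | x ∈ ball (T q x0) s ∧ x 2 < g q (x 0, x 1)}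
      = (T q).symm ⁻¹' (Ω ∩ ball x0 s) := by
    intro s hs
    ext z
    simp only [mem_ofPred_eq, mem_preimage, mem_inter_iff]
    have h1 : z ∈ ball (T q x0) s ↔ (T q).symm z ∈ ball x0 s := by
      rw [mem_ball, mem_ball, ← (T q).dist_map ((T q).symm z) x0, (T q).apply_symm_apply]
    rw [h1]
    constructor
    · rintro ⟨ha, hb⟩
      refine ⟨?_, ha⟩
      have h2 : (T q).symm z ∈ ball q (r q) := hball (ball_subset_ball hs ha)
      have h3 := (hx q hqf _ h2).2
      rw [(T q).apply_symm_apply] at h3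
      exact h3 hb
    · rintro ⟨ha, hb⟩
      refine ⟨hb, ?_⟩
      have h2 : (T q).symm z ∈ ball q (r q) := hball (ball_subset_ball hs hb)
      have h3 := (hx q hqf _ h2).1 ha
      rw [(T q).apply_symm_apply] at h3
      exact h3
  rw [hset ρ le_rfl] at hB' hv'
  rw [hset (ρ / 2) (by linarith)] at hv'
  refine ⟨fun i => (T q) ⁻¹' (B' i), ?_, ?_⟩
  · intro i
    refine ⟨(T q).continuous.measurable (hB' i).1, ?_⟩
    intro z hz
    have h1 := (hB' i).2 hz
    rw [mem_preimage, (T q).symm_apply_apply] at h1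
    exact h1
  intro v hv hv2 hgv hcac hB
  have hv'' := hv' (fun z => v ((T q).symm z))
    (hv.comp (T q).symm.contDiff.contDiffOn (fun z hz => hz))
    (intOn (T q) (fun x => v x ^ 2) _ hv2)
    (by
      have := intOn (T q) (fun x => ‖gr v x‖ ^ 2) _ hgv
      refine this.congr_fun ?_ ?_
      · intro z _
        simp only [norm_gr_comp]
      · exact (T q).symm.continuous.measurable (hO.op.measurableSet.inter measurableSet_ball))
    (by
      intro i
      have h1 := hB i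
      rw [← setInt (T q) v] at h1
      have h2 : (T q).symm ⁻¹' ((T q) ⁻¹' (B' i)) = B' i := by
        rw [← preimage_comp]
        ext z
        simp
      rw [h2] at h1
      exact h1)
  have e1 : ∫ x in (T q).symm ⁻¹' (Ω ∩ ball x0 (ρ / 2)), v ((T q).symm x) ^ 2
      = ∫ x in Ω ∩ ball x0 (ρ / 2), v x ^ 2 := setInt (T q) (fun x => v x ^ 2) _
  have e2 : ∫ x in (T q).symm ⁻¹' (Ω ∩ ball x0 ρ), ‖gr (fun z => v ((T q).symm z)) x‖ ^ 2
      = ∫ x in Ω ∩ ball x0 ρ, ‖gr v x‖ ^ 2 := by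
    rw [← setInt (T q) (fun x => ‖gr v x‖ ^ 2)]
    simp only [norm_gr_comp]
  rw [e1, e2] at hv''
  unfold Cac at hcac
  refine hcac.trans ?_
  have h5 : C / ρ ^ 2 * ∫ x in Ω ∩ ball x0 (ρ / 2), v x ^ 2
      ≤ C / ρ ^ 2 * ((δ * ρ) ^ 2 * ∫ x in Ω ∩ ball x0 ρ, ‖gr v x‖ ^ 2) :=
    mul_le_mul_of_nonneg_left hv'' (by positivity)
  refine h5.trans (le_of_eq ?_)
  rw [← hCδ]
  field_simp

end Pool.Agent.H32.IC
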