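import Mathlib
import Pool.Agent.H94.IC.Targets3
import Pool.Agent.H29.IC.HSM

/-!
# Insulating cracks, module FCE, part 1: charts
-/

open MeasureTheory Set Filter Topology Metric
open scoped ENNReal NNReal ContDiff RealInnerProductSpace

namespace Pool.Agent.H32.IC

open Pool.Agent.H94.IC

namespace FCE

open Pool.Agent.H29.IC (inner_gr norm_gr gr_apply contDiffAt_gr)

/-- chart data -/
structure Ch (Ω S : Set E) (Ψ : OpenPartialHomeomorph E E) (r : ℝ) : Prop where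
  rpos : 0 < r
  src : closedBall 0 (4 * r) ⊆ Ψ.source
  tgt : Ψ.target ⊆ Ω
  sm : ContDiffOn ℝ ∞ Ψ Ψ.source
  sms : ContDiffOn ℝ ∞ Ψ.symm Ψ.target
  flat : ∀ y ∈ ball (0 : E) (4 * r), Ψ y ∈ S ↔ y 2 = 0

/-- the gradients of the coordinates -/
noncomputable def NN (Ψ : OpenPartialHomeomorph E E) (l : Fin 3) (y : E) : E :=
  gr (fun z => (Ψ.symm z) l) (Ψ y)

/-- the coefficients -/
noncomputable def AA (Ψ : OpenPartialHomeomorph E E) (y : E) : Matrix (Fin 3) (Fin 3) ℝ :=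
  Matrix.of fun i j => |(fderiv ℝ Ψ y).det| * ⟪NN Ψ i y, NN Ψ j y⟫

theorem vec_eq (u : E) : u = ∑ l : Fin 3, u l • ev l := by
  have := (EuclideanSpace.basisFun (Fin 3) ℝ).sum_repr u
  simpa using this.symm

theorem fderiv_vec (f : E → ℝ) (y u : E) : fderiv ℝ f y u = ∑ l : Fin 3, u l * pd l f y := by
  conv_lhs => rw [vec_eq u]
  rw [map_sum]
  refine Finset.sum_congr rfl (fun l _ => ?_)
  rw [map_smul, smul_eq_mul, pd]

theorem abs_pd_le (f : E → ℝ) (y : E) (l : Fin 3) : |pd l f y| ≤ ‖gr f y‖ := by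
  have h1 := inner_gr f y (ev l)
  unfold pd
  rw [← h1]
  refine (abs_real_inner_le_norm _ _).trans ?_
  simp

variable {Ω S : Set E} {Ψ : OpenPartialHomeomorph E E} {r : ℝ}

theorem dAt (h : Ch Ω S Ψ r) {y : E} (hy : y ∈ Ψ.source) : DifferentiableAt ℝ Ψ y :=
  (h.sm.contDiffAt (Ψ.open_source.mem_nhds hy)).differentiableAt (by simp)

theorem dsAt (h : Ch Ω S Ψ r) {y : E} (hy : y ∈ Ψ.source) : DifferentiableAt ℝ Ψ.symm (Ψ y) :=
  (h.sms.contDiffAt (Ψ.open_target.mem_nhds (Ψ.map_source hy))).differentiableAt (by simp)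

theorem d_symm_comp (h : Ch Ω S Ψ r) {y : E} (hy : y ∈ Ψ.source) :
    (fderiv ℝ Ψ.symm (Ψ y)).comp (fderiv ℝ Ψ y) = ContinuousLinearMap.id ℝ E := by
  have h1 : HasFDerivAt (Ψ.symm ∘ Ψ) ((fderiv ℝ Ψ.symm (Ψ y)).comp (fderiv ℝ Ψ y)) y :=
    (dsAt h hy).hasFDerivAt.comp y (dAt h hy).hasFDerivAt
  have h2 : (Ψ.symm ∘ Ψ) =ᶠ[𝓝 y] id := Ψ.eventually_left_inverse hy
  have h3 : HasFDerivAt (Ψ.symm ∘ Ψ) (ContinuousLinearMap.id ℝ E) y :=
    (hasFDerivAt_id y).congr_of_eventuallyEq h2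
  exact h1.unique h3

theorem d_comp_symm (h : Ch Ω S Ψ r) {y : E} (hy : y ∈ Ψ.source) :
    (fderiv ℝ Ψ y).comp (fderiv ℝ Ψ.symm (Ψ y)) = ContinuousLinearMap.id ℝ E := by
  have h0 : (fderiv ℝ Ψ.symm (Ψ y) : E →ₗ[ℝ] E) ∘ₗ (fderiv ℝ Ψ y : E →ₗ[ℝ] E)
      = LinearMap.id := by
    have := congrArg (fun L : E →L[ℝ] E => (L : E →ₗ[ℝ] E)) (d_symm_comp h hy)
    exact this
  have h1 := (LinearMap.comp_eq_id_comm ℝ E).1 h0
  ext1 v
  exact congrArg (fun L : E →ₗ[ℝ] E => L v) h1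

theorem det_ne (h : Ch Ω S Ψ r) {y : E} (hy : y ∈ Ψ.source) : (fderiv ℝ Ψ y).det ≠ 0 := by
  intro h0
  have h1 := congrArg ContinuousLinearMap.det (d_symm_comp h hy)
  have h2 : ((fderiv ℝ Ψ.symm (Ψ y)).comp (fderiv ℝ Ψ y)).det
      = (fderiv ℝ Ψ.symm (Ψ y)).det * (fderiv ℝ Ψ y).det := LinearMap.det_comp _ _
  rw [h2, h0, mul_zero] at h1
  have h3 : (ContinuousLinearMap.id ℝ E).det = 1 := LinearMap.det_id
  rw [h3] at h1
  exact zero_ne_one h1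

theorem inner_NN (h : Ch Ω S Ψ r) {y : E} (hy : y ∈ Ψ.source) (l : Fin 3) (v : E) :
    ⟪NN Ψ l y, v⟫ = (fderiv ℝ Ψ.symm (Ψ y) v) l := by
  unfold NN
  rw [inner_gr]
  have h1 : HasFDerivAt (fun z => (Ψ.symm z) l)
      ((EuclideanSpace.proj l : E →L[ℝ] ℝ).comp (fderiv ℝ Ψ.symm (Ψ y))) (Ψ y) :=
    (EuclideanSpace.proj l : E →L[ℝ] ℝ).hasFDerivAt.comp (Ψ y) (dsAt h hy).hasFDerivAt
  rw [h1.fderiv]
  rfl

theorem inner_NN_d (h : Ch Ω S Ψ r) {y : E} (hy : y ∈ Ψ.source) (l : Fin 3) (u : E) :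
    ⟪NN Ψ l y, fderiv ℝ Ψ y u⟫ = u l := by
  rw [inner_NN h hy]
  have := congrArg (fun L : E →L[ℝ] E => L u) (d_symm_comp h hy)
  exact congrArg (fun w : E => w l) this

/-- the gradient in the coordinates -/
theorem gr_chart (h : Ch Ω S Ψ r) {y : E} (hy : y ∈ Ψ.source) {f : E → ℝ}
    (hf : DifferentiableAt ℝ f (Ψ y)) :
    gr f (Ψ y) = ∑ l : Fin 3, pd l (fun y' => f (Ψ y')) y • NN Ψ l y := by
  refine ext_inner_right ℝ (fun v => ?_)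
  obtain ⟨u, rfl⟩ : ∃ u, fderiv ℝ Ψ y u = v :=
    ⟨fderiv ℝ Ψ.symm (Ψ y) v, congrArg (fun L : E →L[ℝ] E => L v) (d_comp_symm h hy)⟩
  rw [inner_gr, sum_inner]
  have h1 : HasFDerivAt (fun y' => f (Ψ y')) ((fderiv ℝ f (Ψ y)).comp (fderiv ℝ Ψ y)) y :=
    hf.hasFDerivAt.comp y (dAt h hy).hasFDerivAt
  have h2 : fderiv ℝ f (Ψ y) (fderiv ℝ Ψ y u) = fderiv ℝ (fun y' => f (Ψ y')) y u := by
    rw [h1.fderiv]
    rfl
  rw [h2, fderiv_vec]
  refine Finset.sum_congr rfl (fun l _ => ?_)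
  rw [real_inner_smul_left, inner_NN_d h hy, mul_comm]

theorem gr_pull_le (h : Ch Ω S Ψ r) {y : E} (hy : y ∈ Ψ.source) {f : E → ℝ}
    (hf : DifferentiableAt ℝ f (Ψ y)) :
    ‖gr (fun y' => f (Ψ y')) y‖ ≤ ‖fderiv ℝ Ψ y‖ * ‖gr f (Ψ y)‖ := by
  have h1 : HasFDerivAt (fun y' => f (Ψ y')) ((fderiv ℝ f (Ψ y)).comp (fderiv ℝ Ψ y)) y :=
    hf.hasFDerivAt.comp y (dAt h hy).hasFDerivAt
  rw [norm_gr, norm_gr, h1.fderiv, mul_comm]
  exact ContinuousLinearMap.opNorm_comp_le _ _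

theorem det_formula (L : E →L[ℝ] E) : L.det = Matrix.det (Matrix.of fun i j : Fin 3 => (L (ev j)) i) := by
  have h1 := LinearMap.det_toMatrix (EuclideanSpace.basisFun (Fin 3) ℝ).toBasis (L : E →ₗ[ℝ] E)
  have h2 : L.det = LinearMap.det (L : E →ₗ[ℝ] E) := rfl
  rw [h2, ← h1]
  congr 1

theorem contDiffOn_det (h : Ch Ω S Ψ r) : ContDiffOn ℝ ∞ (fun y => (fderiv ℝ Ψ y).det) Ψ.source := by
  have h1 : ContDiffOn ℝ ∞ (fderiv ℝ Ψ) Ψ.source :=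
    h.sm.fderiv_of_isOpen Ψ.open_source (by norm_cast)
  have h2 : ∀ i j : Fin 3, ContDiffOn ℝ ∞ (fun y => (fderiv ℝ Ψ y (ev j)) i) Ψ.source := by
    intro i j
    have h3 : ContDiffOn ℝ ∞ (fun y => fderiv ℝ Ψ y (ev j)) Ψ.source :=
      h1.clm_apply contDiffOn_const
    exact (EuclideanSpace.proj i : E →L[ℝ] ℝ).contDiff.comp_contDiffOn h3
  simp_rw [det_formula, Matrix.det_fin_three, Matrix.of_apply]
  have m := fun i j : Fin 3 => h2 i j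
  exact ((((((m 0 0).mul (m 1 1)).mul (m 2 2)).sub (((m 0 0).mul (m 1 2)).mul (m 2 1))).sub
    (((m 0 1).mul (m 1 0)).mul (m 2 2))).add (((m 0 1).mul (m 1 2)).mul (m 2 0))).add
    (((m 0 2).mul (m 1 0)).mul (m 2 1)) |>.sub (((m 0 2).mul (m 1 1)).mul (m 2 0))

theorem contDiffOn_NN (h : Ch Ω S Ψ r) (l : Fin 3) : ContDiffOn ℝ ∞ (NN Ψ l) Ψ.source := by
  intro y hy
  have h1 : ContDiffAt ℝ ∞ (fun z => (Ψ.symm z) l) (Ψ y) :=
    (EuclideanSpace.proj l : E →L[ℝ] ℝ).contDiff.contDiffAt.comp (Ψ y)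
      (h.sms.contDiffAt (Ψ.open_target.mem_nhds (Ψ.map_source hy)))
  have h2 : ContDiffAt ℝ ∞ (gr (fun z => (Ψ.symm z) l)) (Ψ y) :=
    contDiffAt_gr (n := ⊤) (by simpa using h1)
  exact (h2.comp y (h.sm.contDiffAt (Ψ.open_source.mem_nhds hy))).contDiffWithinAt

theorem contDiffOn_AA (h : Ch Ω S Ψ r) (i j : Fin 3) :
    ContDiffOn ℝ ∞ (fun y => AA Ψ y i j) Ψ.source := by
  intro y hy
  have h1 : ContDiffAt ℝ ∞ (fun y => (fderiv ℝ Ψ y).det) y :=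
    (contDiffOn_det h).contDiffAt (Ψ.open_source.mem_nhds hy)
  have h2 : ContDiffAt ℝ ∞ (fun y => |(fderiv ℝ Ψ y).det|) y :=
    h1.abs (det_ne h hy)
  have h3 := (contDiffOn_NN h i).contDiffAt (Ψ.open_source.mem_nhds hy)
  have h4 := (contDiffOn_NN h j).contDiffAt (Ψ.open_source.mem_nhds hy)
  exact (h2.mul (h3.inner ℝ h4)).contDiffWithinAt

/-- bounds on the closed ball -/
theorem bounds (h : Ch Ω S Ψ r) : ∃ m M : ℝ, 0 < m ∧ 0 < M ∧ ∀ y ∈ closedBall (0 : E) (4 * r),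
    m ≤ |(fderiv ℝ Ψ y).det| ∧ |(fderiv ℝ Ψ y).det| ≤ M ∧ ‖fderiv ℝ Ψ y‖ ≤ M ∧
      ∀ l, ‖NN Ψ l y‖ ≤ M := by
  have hK : IsCompact (closedBall (0 : E) (4 * r)) := isCompact_closedBall _ _
  have c1 : ContinuousOn (fun y => |(fderiv ℝ Ψ y).det|) (closedBall (0 : E) (4 * r)) :=
    ((contDiffOn_det h).continuousOn.abs).mono h.src
  have c2 : ContinuousOn (fderiv ℝ Ψ) (closedBall (0 : E) (4 * r)) :=
    (h.sm.fderiv_of_isOpen (m := ∞) Ψ.open_source (by norm_cast)).continuousOn.mono h.src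
  have hne : (closedBall (0 : E) (4 * r)).Nonempty :=
    ⟨0, mem_closedBall_self (by linarith [h.rpos])⟩
  obtain ⟨y1, hy1, hm⟩ := hK.exists_isMinOn hne c1
  obtain ⟨M1, hM1⟩ := hK.exists_bound_of_continuousOn c1
  obtain ⟨M2, hM2⟩ := hK.exists_bound_of_continuousOn c2
  choose M3 hM3 using fun l : Fin 3 =>
    hK.exists_bound_of_continuousOn ((contDiffOn_NN h l).continuousOn.mono h.src)
  refine ⟨|(fderiv ℝ Ψ y1).det|, |M1| + |M2| + (|M3 0| + |M3 1| + |M3 2|) + 1,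
    abs_pos.2 (det_ne h (h.src hy1)), by positivity, ?_⟩
  intro y hy
  refine ⟨hm hy, ?_, ?_, ?_⟩
  · have a1 := hM1 y hy
    rw [Real.norm_eq_abs, abs_abs] at a1
    have a2 := le_abs_self M1
    have a3 := abs_nonneg M2
    have a4 := abs_nonneg (M3 0)
    have a5 := abs_nonneg (M3 1)
    have a6 := abs_nonneg (M3 2)
    linarith
  · have a1 := hM2 y hy
    have a2 := le_abs_self M2
    have a3 := abs_nonneg M1
    have a4 := abs_nonneg (M3 0)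
    have a5 := abs_nonneg (M3 1)
    have a6 := abs_nonneg (M3 2)
    linarith
  · intro l
    have a1 := hM3 l y hy
    have a2 := le_abs_self (M3 l)
    have a3 := abs_nonneg M1
    have a3' := abs_nonneg M2
    have a4 := abs_nonneg (M3 0)
    have a5 := abs_nonneg (M3 1)
    have a6 := abs_nonneg (M3 2)
    fin_cases l
    all_goals
      first
        | (simp only [Fin.zero_eta, Fin.mk_one, Fin.reduceFinMk] at a1 a2 ⊢; linarith)

/-- ellipticity -/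
theorem ellip (h : Ch Ω S Ψ r) : ∃ lam > 0, ∀ y ∈ closedBall (0 : E) (4 * r), ∀ ξ : Fin 3 → ℝ,
    lam * ∑ i, ξ i ^ 2 ≤ ∑ i, ∑ j, AA Ψ y i j * ξ i * ξ j := by
  obtain ⟨m, M, hm, hM, hb⟩ := bounds h
  refine ⟨m / M ^ 2, by positivity, ?_⟩
  intro y hy ξ
  obtain ⟨b1, _, b3, _⟩ := hb y hy
  set u : E := WithLp.toLp 2 ξ with hu
  have hul : ∀ l, u l = ξ l := fun l => rfl
  set N : E := ∑ l, ξ l • NN Ψ l y with hN
  have e1 : ∑ i, ∑ j, AA Ψ y i j * ξ i * ξ j = |(fderiv ℝ Ψ y).det| * ‖N‖ ^ 2 := by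
    rw [← real_inner_self_eq_norm_sq, hN, sum_inner, Finset.mul_sum]
    refine Finset.sum_congr rfl (fun i _ => ?_)
    rw [real_inner_smul_left, inner_sum, Finset.mul_sum, Finset.mul_sum]
    refine Finset.sum_congr rfl (fun j _ => ?_)
    rw [real_inner_smul_right]
    unfold AA
    rw [Matrix.of_apply]
    ring
  have e2 : ∑ i, ξ i ^ 2 = ‖u‖ ^ 2 := by
    rw [EuclideanSpace.norm_sq_eq]
    refine Finset.sum_congr rfl (fun i _ => ?_)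
    rw [hul, Real.norm_eq_abs, sq_abs]
  have e3 : ‖u‖ ^ 2 = ⟪N, fderiv ℝ Ψ y u⟫ := by
    rw [← e2, hN, sum_inner]
    refine Finset.sum_congr rfl (fun l _ => ?_)
    rw [real_inner_smul_left, inner_NN_d h (h.src hy), hul]
    ring
  have e4 : ‖u‖ ≤ M * ‖N‖ := by
    have h1 : ‖u‖ ^ 2 ≤ ‖N‖ * (M * ‖u‖) := by
      rw [e3]
      refine (real_inner_le_norm _ _).trans ?_
      refine mul_le_mul_of_nonneg_left ?_ (norm_nonneg _)
      exact ((fderiv ℝ Ψ y).le_opNorm u).trans (mul_le_mul_of_nonneg_right b3 (norm_nonneg _))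
    rcases eq_or_lt_of_le (norm_nonneg u) with h0 | h0
    · rw [← h0]
      positivity
    · nlinarith
  rw [e1, e2]
  have e5 : ‖u‖ ^ 2 ≤ M ^ 2 * ‖N‖ ^ 2 := by
    rw [← mul_pow]
    exact pow_le_pow_left₀ (norm_nonneg _) e4 2
  calc m / M ^ 2 * ‖u‖ ^ 2 ≤ m / M ^ 2 * (M ^ 2 * ‖N‖ ^ 2) :=
        mul_le_mul_of_nonneg_left e5 (by positivity)
    _ = m * ‖N‖ ^ 2 := by field_simp
    _ ≤ |(fderiv ℝ Ψ y).det| * ‖N‖ ^ 2 := mul_le_mul_of_nonneg_right b1 (by positivity)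

end FCE

end Pool.Agent.H32.IC
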