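import Mathlib
import Pool.Agent.H32.IC.FCE1

/-!
# Insulating cracks, module FCE, part 2: the half ball problem in a chart
-/

open MeasureTheory Set Filter Topology Metric
open scoped ENNReal NNReal ContDiff RealInnerProductSpace

namespace Pool.Agent.H32.IC

open Pool.Agent.H94.IC

namespace FCE

open Pool.Agent.H29.IC (inner_gr norm_gr gr_apply contDiffAt_gr)

variable {Ω S : Set E} {Ψ : OpenPartialHomeomorph E E} {r : ℝ}

theorem hb_open (r : ℝ) : IsOpen (HB r) := by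
  have h1 : IsOpen {y : E | ‖y‖ < r} := isOpen_lt continuous_norm continuous_const
  have h2 : IsOpen {y : E | 0 < y 2} :=
    isOpen_lt continuous_const (EuclideanSpace.proj (2 : Fin 3) : E →L[ℝ] ℝ).continuous
  exact h1.inter h2

theorem hb_sub (h : Ch Ω S Ψ r) : HB r ⊆ ball (0 : E) (4 * r) := by
  intro y hy
  rw [mem_ball_zero_iff]
  have := hy.1
  have := h.rpos
  linarith [hy.1]

theorem hb_sub' (h : Ch Ω S Ψ r) : HB r ⊆ closedBall (0 : E) (4 * r) :=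
  (hb_sub h).trans ball_subset_closedBall

theorem gr_contOn {O : Set E} (hO : IsOpen O) {f : E → ℝ} (hf : ContDiffOn ℝ ∞ f O) :
    ContinuousOn (gr f) O := by
  intro x hx
  have h1 : ContDiffAt ℝ ∞ (gr f) x :=
    contDiffAt_gr (n := ⊤) (by simpa using hf.contDiffAt (hO.mem_nhds hx))
  exact h1.continuousAt.continuousWithinAt

theorem dAtOn {O : Set E} (hO : IsOpen O) {f : E → ℝ} (hf : ContDiffOn ℝ ∞ f O) {x : E}
    (hx : x ∈ O) : DifferentiableAt ℝ f x :=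
  (hf.contDiffAt (hO.mem_nhds hx)).differentiableAt (by simp)

theorem cov (h : Ch Ω S Ψ r) {s : Set E} (hs : MeasurableSet s)
    (hss : s ⊆ closedBall (0 : E) (4 * r)) (g : E → ℝ) :
    ∫ x in Ψ '' s, g x = ∫ y in s, |(fderiv ℝ Ψ y).det| * g (Ψ y) :=
  integral_image_eq_integral_abs_det_fderiv_smul volume hs
    (fun y hy => (dAt h (h.src (hss hy))).hasFDerivAt.hasFDerivWithinAt)
    (Ψ.injOn.mono (hss.trans h.src)) g

theorem icov (h : Ch Ω S Ψ r) {s : Set E} (hs : MeasurableSet s)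
    (hss : s ⊆ closedBall (0 : E) (4 * r)) (g : E → ℝ) :
    IntegrableOn g (Ψ '' s) ↔ IntegrableOn (fun y => |(fderiv ℝ Ψ y).det| * g (Ψ y)) s :=
  integrableOn_image_iff_integrableOn_abs_det_fderiv_smul volume hs
    (fun y hy => (dAt h (h.src (hss hy))).hasFDerivAt.hasFDerivWithinAt)
    (Ψ.injOn.mono (hss.trans h.src)) g

theorem sq_down (h : Ch Ω S Ψ r) {G : Type*} [NormedAddCommGroup G] {s : Set E}
    (hs : MeasurableSet s) (hss : s ⊆ closedBall (0 : E) (4 * r)) (g : E → G)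
    (hm : AEStronglyMeasurable (fun y => g (Ψ y)) (volume.restrict s))
    (hg : IntegrableOn (fun x => ‖g x‖ ^ 2) (Ψ '' s)) :
    IntegrableOn (fun y => ‖g (Ψ y)‖ ^ 2) s := by
  obtain ⟨m, M, hm0, hM, hb⟩ := bounds h
  have h1 := (icov h hs hss _).1 hg
  refine Integrable.mono' (h1.const_mul m⁻¹) (hm.norm.pow 2) ?_
  filter_upwards [ae_restrict_mem hs] with y hy
  obtain ⟨b1, _⟩ := hb y (hss hy)
  rw [Real.norm_of_nonneg (by positivity)]
  have h2 : m * ‖g (Ψ y)‖ ^ 2 ≤ |(fderiv ℝ Ψ y).det| * ‖g (Ψ y)‖ ^ 2 :=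
    mul_le_mul_of_nonneg_right b1 (by positivity)
  calc ‖g (Ψ y)‖ ^ 2 = m⁻¹ * (m * ‖g (Ψ y)‖ ^ 2) := by field_simp
    _ ≤ m⁻¹ * (|(fderiv ℝ Ψ y).det| * ‖g (Ψ y)‖ ^ 2) :=
      mul_le_mul_of_nonneg_left h2 (by positivity)

theorem det_meas (h : Ch Ω S Ψ r) {s : Set E} (hs : MeasurableSet s)
    (hss : s ⊆ closedBall (0 : E) (4 * r)) :
    AEStronglyMeasurable (fun y => |(fderiv ℝ Ψ y).det|) (volume.restrict s) :=
  (((contDiffOn_det h).continuousOn.mono (hss.trans h.src)).abs).aestronglyMeasurable hs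

theorem sq_up (h : Ch Ω S Ψ r) {G : Type*} [NormedAddCommGroup G] {s : Set E}
    (hs : MeasurableSet s) (hss : s ⊆ closedBall (0 : E) (4 * r)) (g : E → G)
    (hg : IntegrableOn (fun y => ‖g (Ψ y)‖ ^ 2) s) :
    IntegrableOn (fun x => ‖g x‖ ^ 2) (Ψ '' s) := by
  obtain ⟨m, M, hm0, hM, hb⟩ := bounds h
  rw [icov h hs hss]
  refine Integrable.mono' (hg.const_mul M) ((det_meas h hs hss).mul hg.aestronglyMeasurable) ?_
  filter_upwards [ae_restrict_mem hs] with y hy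
  obtain ⟨_, b2, _⟩ := hb y (hss hy)
  rw [Real.norm_of_nonneg (by positivity)]
  exact mul_le_mul_of_nonneg_right b2 (by positivity)

theorem maps (h : Ch Ω S Ψ r) {y : E} (hy : y ∈ HB r) : Ψ y ∈ Ω \ S := by
  refine ⟨h.tgt (Ψ.map_source (h.src (hb_sub' h hy))), ?_⟩
  rw [h.flat y (hb_sub h hy)]
  exact hy.2.ne'

theorem img_sub (h : Ch Ω S Ψ r) {s : Set E} (hss : s ⊆ closedBall (0 : E) (4 * r)) :
    Ψ '' s ⊆ Ω := by
  rintro _ ⟨y, hy, rfl⟩
  exact h.tgt (Ψ.map_source (h.src (hss hy)))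

theorem sq_of_memLp {G : Type*} [NormedAddCommGroup G] {μ : Measure E} {f : E → G}
    (hf : MemLp f 2 μ) : Integrable (fun x => ‖f x‖ ^ 2) μ :=
  (memLp_two_iff_integrable_sq_norm hf.aestronglyMeasurable).1 hf

section

variable {u : E → ℝ}

theorem w_sm (hO : IsOpen (Ω \ S)) (h : Ch Ω S Ψ r) (hu : ContDiffOn ℝ ∞ u (Ω \ S)) :
    ContDiffOn ℝ ∞ (fun y => u (Ψ y)) (HB r) :=
  hu.comp (h.sm.mono ((hb_sub' h).trans h.src)) (fun y hy => maps h hy)

theorem w_l2 (hO : IsOpen (Ω \ S)) (h : Ch Ω S Ψ r) (hu : WN Ω S u) :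
    MemLp (fun y => u (Ψ y)) 2 (volume.restrict (HB r)) := by
  have hm : AEStronglyMeasurable (fun y => u (Ψ y)) (volume.restrict (HB r)) :=
    (w_sm hO h hu.harm.1).continuousOn.aestronglyMeasurable (hb_open r).measurableSet
  rw [memLp_two_iff_integrable_sq_norm hm]
  refine sq_down h (hb_open r).measurableSet (hb_sub' h) u hm ?_
  exact IntegrableOn.mono_set (sq_of_memLp hu.l2) (img_sub h (hb_sub' h))

theorem w_g2 (hO : IsOpen (Ω \ S)) (h : Ch Ω S Ψ r) (hu : WN Ω S u) :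
    MemLp (gr (fun y => u (Ψ y))) 2 (volume.restrict (HB r)) := by
  have hm : AEStronglyMeasurable (gr (fun y => u (Ψ y))) (volume.restrict (HB r)) :=
    (gr_contOn (hb_open r) (w_sm hO h hu.harm.1)).aestronglyMeasurable (hb_open r).measurableSet
  have hm2 : AEStronglyMeasurable (fun y => gr u (Ψ y)) (volume.restrict (HB r)) :=
    ((gr_contOn hO hu.harm.1).comp ((h.sm.mono ((hb_sub' h).trans h.src)).continuousOn)
      (fun y hy => maps h hy)).aestronglyMeasurable (hb_open r).measurableSet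
  rw [memLp_two_iff_integrable_sq_norm hm]
  obtain ⟨m, M, hm0, hM, hb⟩ := bounds h
  have h1 := sq_down h (hb_open r).measurableSet (hb_sub' h) (gr u) hm2
    (IntegrableOn.mono_set (sq_of_memLp hu.g2) (img_sub h (hb_sub' h)))
  refine Integrable.mono' (h1.const_mul (M ^ 2)) (hm.norm.pow 2) ?_
  filter_upwards [ae_restrict_mem (hb_open r).measurableSet] with y hy
  rw [Real.norm_of_nonneg (by positivity), ← mul_pow]
  refine pow_le_pow_left₀ (norm_nonneg _) ?_ 2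
  refine (gr_pull_le h (h.src (hb_sub' h hy)) (dAtOn hO hu.harm.1 (maps h hy))).trans ?_
  exact mul_le_mul_of_nonneg_right (hb y (hb_sub' h hy)).2.2.1 (norm_nonneg _)

/-- the transported test function -/
noncomputable def tf (Ψ : OpenPartialHomeomorph E E) (r : ℝ) (φ : E → ℝ) : E → ℝ :=
  (Ψ '' (HB r)).indicator (fun x => φ (Ψ.symm x))

theorem U_open (h : Ch Ω S Ψ r) : IsOpen (Ψ '' (HB r)) :=
  Ψ.isOpen_image_of_subset_source (hb_open r) ((hb_sub' h).trans h.src)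

theorem tf_in (h : Ch Ω S Ψ r) (φ : E → ℝ) {x : E} (hx : x ∈ Ψ '' (HB r)) :
    tf Ψ r φ =ᶠ[𝓝 x] fun x => φ (Ψ.symm x) := by
  filter_upwards [(U_open h).mem_nhds hx] with y hy
  unfold tf
  rw [indicator_of_mem hy]

theorem tf_val (h : Ch Ω S Ψ r) (φ : E → ℝ) {y : E} (hy : y ∈ HB r) : tf Ψ r φ (Ψ y) = φ y := by
  unfold tf
  rw [indicator_of_mem (mem_image_of_mem _ hy), Ψ.left_inv (h.src (hb_sub' h hy))]

/-- the closed set which carries the test function -/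
def CC (Ψ : OpenPartialHomeomorph E E) (r' : ℝ) : Set E := Ψ '' {y | ‖y‖ ≤ r' ∧ 0 ≤ y 2}

theorem CC_cpt (h : Ch Ω S Ψ r) {r' : ℝ} (hr : r' < r) : IsCompact (CC Ψ r') := by
  have h1 : IsCompact {y : E | ‖y‖ ≤ r' ∧ 0 ≤ y 2} := by
    have h2 : {y : E | ‖y‖ ≤ r' ∧ 0 ≤ y 2} = closedBall 0 r' ∩ {y | 0 ≤ y 2} := by
      ext y
      simp
    rw [h2]
    exact (isCompact_closedBall _ _).inter_right
      (isClosed_le continuous_const (EuclideanSpace.proj (2 : Fin 3) : E →L[ℝ] ℝ).continuous)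
  refine h1.image_of_continuousOn (h.sm.continuousOn.mono (fun y hy => h.src ?_))
  rw [mem_closedBall_zero_iff]
  have := h.rpos
  linarith [hy.1]

theorem CC_sub (h : Ch Ω S Ψ r) {r' : ℝ} (hr : r' < r) : CC Ψ r' ⊆ Ω := by
  rintro _ ⟨y, hy, rfl⟩
  refine h.tgt (Ψ.map_source (h.src ?_))
  rw [mem_closedBall_zero_iff]
  have := h.rpos
  linarith [hy.1]

theorem tf_out (h : Ch Ω S Ψ r) {φ : E → ℝ} {r' : ℝ} (hr : r' < r)
    (h0 : ∀ y ∈ HB r, r' ≤ ‖y‖ → φ y = 0) {x : E} (hx : x ∉ CC Ψ r') : tf Ψ r φ =ᶠ[𝓝 x] 0 := by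
  filter_upwards [(CC_cpt h hr).isClosed.isOpen_compl.mem_nhds hx] with z hz
  unfold tf
  by_cases hzU : z ∈ Ψ '' (HB r)
  · rw [indicator_of_mem hzU]
    obtain ⟨y, hy, rfl⟩ := hzU
    rw [Ψ.left_inv (h.src (hb_sub' h hy))]
    refine h0 y hy ?_
    by_contra hlt
    push Not at hlt
    exact hz ⟨y, ⟨hlt.le, hy.2.le⟩, rfl⟩
  · rw [indicator_of_notMem hzU]
    rfl

theorem CC_not (h : Ch Ω S Ψ r) {r' : ℝ} (hr : r' < r) {x : E} (hx : x ∈ CC Ψ r')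
    (hxU : x ∉ Ψ '' (HB r)) : x ∈ S ∧ x ∈ Ψ '' {y | y ∈ ball (0 : E) (4 * r) ∧ y 2 = 0} := by
  obtain ⟨y, ⟨hy1, hy2⟩, rfl⟩ := hx
  have hrp := h.rpos
  have hyr : ‖y‖ < r := lt_of_le_of_lt hy1 hr
  have hyb : y ∈ ball (0 : E) (4 * r) := by
    rw [mem_ball_zero_iff]
    linarith
  have hy0 : y 2 = 0 := by
    rcases eq_or_lt_of_le hy2 with h1 | h1
    · exact h1.symm
    · exact absurd ⟨y, ⟨hyr, h1⟩, rfl⟩ hxU
  exact ⟨(h.flat y hyb).2 hy0, y, ⟨hyb, hy0⟩, rfl⟩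

theorem tf_sm (h : Ch Ω S Ψ r) {φ : E → ℝ} {r' : ℝ} (hr : r' < r)
    (hφ : ContDiffOn ℝ ∞ φ (HB r)) (h0 : ∀ y ∈ HB r, r' ≤ ‖y‖ → φ y = 0) :
    ContDiffOn ℝ ∞ (tf Ψ r φ) (Ω \ S) := by
  intro x hx
  refine ContDiffAt.contDiffWithinAt ?_
  by_cases hxU : x ∈ Ψ '' (HB r)
  · refine ContDiffAt.congr_of_eventuallyEq ?_ (tf_in h φ hxU)
    obtain ⟨y, hy, rfl⟩ := hxU
    have hys := h.src (hb_sub' h hy)
    have h1 : ContDiffAt ℝ ∞ φ (Ψ.symm (Ψ y)) := by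
      rw [Ψ.left_inv hys]
      exact hφ.contDiffAt ((hb_open r).mem_nhds hy)
    exact h1.comp (Ψ y) (h.sms.contDiffAt (Ψ.open_target.mem_nhds (Ψ.map_source hys)))
  · have hxC : x ∉ CC Ψ r' := fun hxC => hx.2 (CC_not h hr hxC hxU).1
    exact (contDiffAt_const (c := (0 : ℝ))).congr_of_eventuallyEq (tf_out h hr h0 hxC)

theorem null_flat (h : Ch Ω S Ψ r) :
    volume (Ψ '' {y | y ∈ ball (0 : E) (4 * r) ∧ y 2 = 0}) = 0 := by
  apply addHaar_image_eq_zero_of_differentiableOn_of_addHaar_eq_zero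
  · intro y hy
    exact (dAt h (h.src (ball_subset_closedBall hy.1))).differentiableWithinAt
  · have h1 : {y : E | y ∈ ball (0 : E) (4 * r) ∧ y 2 = 0}
        ⊆ (LinearMap.ker ((EuclideanSpace.proj (2 : Fin 3) : E →L[ℝ] ℝ) : E →ₗ[ℝ] ℝ) : Set E) := by
      intro y hy
      exact hy.2
    refine measure_mono_null h1 (Measure.addHaar_submodule volume _ ?_)
    intro htop
    have h2 : (ev 2 : E) ∈ LinearMap.ker ((EuclideanSpace.proj (2 : Fin 3) : E →L[ℝ] ℝ) : E →ₗ[ℝ] ℝ) := by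
      rw [htop]
      trivial
    have h3 : (ev 2 : E) 2 = 0 := h2
    simp at h3

theorem tf_ae (h : Ch Ω S Ψ r) {φ : E → ℝ} {r' : ℝ} (hr : r' < r)
    (h0 : ∀ y ∈ HB r, r' ≤ ‖y‖ → φ y = 0) :
    ∀ᵐ x ∂(volume : Measure E), x ∉ Ψ '' (HB r) → gr (tf Ψ r φ) x = 0 := by
  have h1 : ∀ᵐ x ∂(volume : Measure E), x ∉ Ψ '' {y | y ∈ ball (0 : E) (4 * r) ∧ y 2 = 0} :=
    compl_mem_ae_iff.2 (null_flat h)
  filter_upwards [h1] with x hx hxU
  have hxC : x ∉ CC Ψ r' := fun hxC => hx (CC_not h hr hxC hxU).2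
  unfold gr gradient
  rw [(tf_out h hr h0 hxC).fderiv_eq (𝕜 := ℝ)]
  simp

theorem tf_gr (h : Ch Ω S Ψ r) {φ : E → ℝ} (hφ : ContDiffOn ℝ ∞ φ (HB r)) {y : E}
    (hy : y ∈ HB r) : gr (tf Ψ r φ) (Ψ y) = ∑ l : Fin 3, pd l φ y • NN Ψ l y := by
  have hys := h.src (hb_sub' h hy)
  have hyU : Ψ y ∈ Ψ '' (HB r) := mem_image_of_mem _ hy
  have hd : DifferentiableAt ℝ (tf Ψ r φ) (Ψ y) := by
    have h1 : ContDiffAt ℝ ∞ φ (Ψ.symm (Ψ y)) := by
      rw [Ψ.left_inv hys]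
      exact hφ.contDiffAt ((hb_open r).mem_nhds hy)
    have h2 : ContDiffAt ℝ ∞ (fun x => φ (Ψ.symm x)) (Ψ y) :=
      h1.comp (Ψ y) (h.sms.contDiffAt (Ψ.open_target.mem_nhds (Ψ.map_source hys)))
    exact (h2.congr_of_eventuallyEq (tf_in h φ hyU)).differentiableAt (by simp)
  rw [gr_chart h hys hd]
  refine Finset.sum_congr rfl (fun l _ => ?_)
  have h3 : (fun y' => tf Ψ r φ (Ψ y')) =ᶠ[𝓝 y] φ := by
    filter_upwards [(hb_open r).mem_nhds hy] with z hz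
    exact tf_val h φ hz
  unfold pd
  rw [h3.fderiv_eq (𝕜 := ℝ)]

theorem tf_grOn (h : Ch Ω S Ψ r) {φ : E → ℝ} {r' : ℝ} (hr : r' < r)
    (hφ : ContDiffOn ℝ ∞ φ (HB r)) (h0 : ∀ y ∈ HB r, r' ≤ ‖y‖ → φ y = 0) (hO : IsOpen (Ω \ S)) :
    ContinuousOn (gr (tf Ψ r φ)) (Ψ '' (HB r)) := by
  refine (gr_contOn hO (tf_sm h hr hφ h0)).mono ?_
  rintro _ ⟨y, hy, rfl⟩
  exact maps h hy

theorem tf_l2 (h : Ch Ω S Ψ r) {φ : E → ℝ} (hφ : ContDiffOn ℝ ∞ φ (HB r))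
    (hl : MemLp φ 2 (volume.restrict (HB r))) : MemLp (tf Ψ r φ) 2 (volume.restrict Ω) := by
  unfold tf
  rw [memLp_indicator_iff_restrict (U_open h).measurableSet,
    Measure.restrict_restrict (U_open h).measurableSet,
    inter_eq_self_of_subset_left (img_sub h (hb_sub' h))]
  have hm : AEStronglyMeasurable (fun x => φ (Ψ.symm x)) (volume.restrict (Ψ '' (HB r))) := by
    refine ContinuousOn.aestronglyMeasurable ?_ (U_open h).measurableSet
    refine hφ.continuousOn.comp (h.sms.continuousOn.mono ?_) ?_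
    · rintro _ ⟨y, hy, rfl⟩
      exact Ψ.map_source (h.src (hb_sub' h hy))
    · rintro _ ⟨y, hy, rfl⟩
      rw [Ψ.left_inv (h.src (hb_sub' h hy))]
      exact hy
  rw [memLp_two_iff_integrable_sq_norm hm]
  refine sq_up h (hb_open r).measurableSet (hb_sub' h) (fun x => φ (Ψ.symm x)) ?_
  refine IntegrableOn.congr_fun (sq_of_memLp hl) ?_ (hb_open r).measurableSet
  intro y hy
  simp only
  rw [Ψ.left_inv (h.src (hb_sub' h hy))]

theorem tf_g2 (h : Ch Ω S Ψ r) {φ : E → ℝ} {r' : ℝ} (hr : r' < r)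
    (hφ : ContDiffOn ℝ ∞ φ (HB r)) (h0 : ∀ y ∈ HB r, r' ≤ ‖y‖ → φ y = 0) (hO : IsOpen (Ω \ S))
    (hl : MemLp (gr φ) 2 (volume.restrict (HB r))) :
    MemLp (gr (tf Ψ r φ)) 2 (volume.restrict Ω) := by
  obtain ⟨m, M, hm0, hM, hb⟩ := bounds h
  have hm : AEStronglyMeasurable (gr (tf Ψ r φ)) (volume.restrict (Ψ '' (HB r))) :=
    (tf_grOn h hr hφ h0 hO).aestronglyMeasurable (U_open h).measurableSet
  have h1 : MemLp (gr (tf Ψ r φ)) 2 (volume.restrict (Ψ '' (HB r))) := by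
    rw [memLp_two_iff_integrable_sq_norm hm]
    refine sq_up h (hb_open r).measurableSet (hb_sub' h) (gr (tf Ψ r φ)) ?_
    have h2 : IntegrableOn (fun y => ‖gr φ y‖ ^ 2) (HB r) := sq_of_memLp hl
    have hm2 : AEStronglyMeasurable (fun y => gr (tf Ψ r φ) (Ψ y)) (volume.restrict (HB r)) := by
      refine ContinuousOn.aestronglyMeasurable ?_ (hb_open r).measurableSet
      exact (tf_grOn h hr hφ h0 hO).comp ((h.sm.mono ((hb_sub' h).trans h.src)).continuousOn)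
        (mapsTo_image _ _)
    refine Integrable.mono' (h2.const_mul ((3 * M) ^ 2)) (hm2.norm.pow 2) ?_
    filter_upwards [ae_restrict_mem (hb_open r).measurableSet] with y hy
    rw [Real.norm_of_nonneg (by positivity), ← mul_pow]
    refine pow_le_pow_left₀ (norm_nonneg _) ?_ 2
    rw [tf_gr h hφ hy]
    refine (norm_sum_le _ _).trans ?_
    have h3 : ∀ l ∈ (Finset.univ : Finset (Fin 3)), ‖pd l φ y • NN Ψ l y‖ ≤ ‖gr φ y‖ * M := by
      intro l _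
      rw [norm_smul, Real.norm_eq_abs]
      exact mul_le_mul (abs_pd_le φ y l) ((hb y (hb_sub' h hy)).2.2.2 l) (norm_nonneg _)
        (norm_nonneg _)
    refine (Finset.sum_le_sum h3).trans (le_of_eq ?_)
    simp
    ring
  have h4 : MemLp ((Ψ '' (HB r)).indicator (gr (tf Ψ r φ))) 2 (volume.restrict Ω) := by
    rw [memLp_indicator_iff_restrict (U_open h).measurableSet,
      Measure.restrict_restrict (U_open h).measurableSet,
      inter_eq_self_of_subset_left (img_sub h (hb_sub' h))]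
    exact h1
  refine h4.ae_eq ?_
  filter_upwards [ae_restrict_of_ae (s := Ω) (tf_ae h hr h0)] with x hx
  by_cases hxU : x ∈ Ψ '' (HB r)
  · rw [indicator_of_mem hxU]
  · rw [indicator_of_notMem hxU, hx hxU]

theorem w_weak (hΩ : IsOpen Ω) (hO : IsOpen (Ω \ S)) (h : Ch Ω S Ψ r) (hu : WN Ω S u) (φ : E → ℝ) (r' : ℝ)
    (hr : r' < r) (hφ : ContDiffOn ℝ ∞ φ (HB r)) (hl : MemLp φ 2 (volume.restrict (HB r)))
    (hg : MemLp (gr φ) 2 (volume.restrict (HB r))) (h0 : ∀ y ∈ HB r, r' ≤ ‖y‖ → φ y = 0) :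
    ∫ y in HB r, ∑ i, ∑ j, AA Ψ y i j * pd i (fun y => u (Ψ y)) y * pd j φ y = 0 := by
  have key := hu.weak (tf Ψ r φ) (CC Ψ r') (tf_sm h hr hφ h0) (tf_l2 h hφ hl)
    (tf_g2 h hr hφ h0 hO hg) (CC_cpt h hr) (CC_sub h hr)
    (fun x hx => (tf_out h hr h0 hx.2).eq_of_nhds)
  have e1 : ∫ x in Ψ '' (HB r), ⟪gr u x, gr (tf Ψ r φ) x⟫ = ∫ x in Ω, ⟪gr u x, gr (tf Ψ r φ) x⟫ := by
    refine (setIntegral_eq_of_subset_of_ae_sdiff_eq_zero ?_ (img_sub h (hb_sub' h)) ?_).symm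
    · exact hΩ.measurableSet.nullMeasurableSet
    · filter_upwards [tf_ae h hr h0] with x hx hxd
      rw [hx hxd.2, inner_zero_right]
  rw [← e1, cov h (hb_open r).measurableSet (hb_sub' h)] at key
  rw [← key]
  refine setIntegral_congr_fun (hb_open r).measurableSet (fun y hy => ?_)
  show ∑ i, ∑ j, AA Ψ y i j * pd i (fun y => u (Ψ y)) y * pd j φ y
    = |(fderiv ℝ Ψ y).det| * ⟪gr u (Ψ y), gr (tf Ψ r φ) (Ψ y)⟫
  rw [tf_gr h hφ hy, gr_chart h (h.src (hb_sub' h hy)) (dAtOn hO hu.harm.1 (maps h hy)),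
    sum_inner, Finset.mul_sum]
  refine Finset.sum_congr rfl (fun i _ => ?_)
  rw [real_inner_smul_left, inner_sum, Finset.mul_sum, Finset.mul_sum]
  refine Finset.sum_congr rfl (fun j _ => ?_)
  rw [real_inner_smul_right]
  unfold AA
  rw [Matrix.of_apply]
  ring

theorem halfSol (hΩ : IsOpen Ω) (hO : IsOpen (Ω \ S)) (h : Ch Ω S Ψ r) (hu : WN Ω S u) :
    HalfSol (AA Ψ) r (fun y => u (Ψ y)) := by
  have hsub : ball (0 : E) (2 * r) ⊆ closedBall (0 : E) (4 * r) := by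
    intro y hy
    rw [mem_ball_zero_iff] at hy
    rw [mem_closedBall_zero_iff]
    have := h.rpos
    linarith
  refine ⟨h.rpos, fun i j => (contDiffOn_AA h i j).mono (hsub.trans h.src), ?_, ?_,
    w_sm hO h hu.harm.1, w_l2 hO h hu, w_g2 hO h hu, w_weak hΩ hO h hu⟩
  · intro y i j
    unfold AA
    rw [Matrix.of_apply, Matrix.of_apply, real_inner_comm]
  · obtain ⟨lam, hl, hell⟩ := ellip h
    exact ⟨lam, hl, fun y hy ξ => hell y (hsub hy) ξ⟩

/-- the flux through one side of a flat piece -/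
theorem up (hRG2 : T_RG2) (hΩ : IsOpen Ω) (hO : IsOpen (Ω \ S)) (h : Ch Ω S Ψ r) (hu : WN Ω S u) :
    Tendsto (fun d : ℝ => d⁻¹ * ∫ x in Ψ '' (HB (r / 2) ∩ {y | y 2 < d}),
      |⟪gr u x, gr (fun z => (Ψ.symm z) 2) x⟫|) (𝓝[>] 0) (𝓝 0) := by
  have h1 := hRG2 (AA Ψ) r (fun y => u (Ψ y)) (halfSol hΩ hO h hu)
  refine h1.congr (fun d => ?_)
  congr 1
  have hms : MeasurableSet (HB (r / 2) ∩ {y : E | y 2 < d}) :=
    ((hb_open _).inter (isOpen_lt (EuclideanSpace.proj (2 : Fin 3) : E →L[ℝ] ℝ).continuous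
      continuous_const)).measurableSet
  have hsub : HB (r / 2) ∩ {y : E | y 2 < d} ⊆ HB r := by
    rintro y ⟨hy, _⟩
    have := h.rpos
    exact ⟨by linarith [hy.1], hy.2⟩
  rw [cov h hms (hsub.trans (hb_sub' h))]
  refine setIntegral_congr_fun hms (fun y hy => ?_)
  have hyr := hsub hy
  show |∑ l, AA Ψ y 2 l * pd l (fun y => u (Ψ y)) y|
    = |(fderiv ℝ Ψ y).det| * |⟪gr u (Ψ y), NN Ψ 2 y⟫|
  rw [gr_chart h (h.src (hb_sub' h hyr)) (dAtOn hO hu.harm.1 (maps h hyr)), sum_inner,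
    ← abs_abs (fderiv ℝ Ψ y).det, ← abs_mul, Finset.mul_sum]
  congr 1
  refine Finset.sum_congr rfl (fun l _ => ?_)
  rw [real_inner_smul_left]
  unfold AA
  rw [Matrix.of_apply, real_inner_comm]
  ring

end

end FCE

end Pool.Agent.H32.IC
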