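import Mathlib
import Pool.Agent.H32.IC.FCE2

/-!
# Insulating cracks, module FCE: the normal flux through the faces of the crack is small in the mean
-/

open MeasureTheory Set Filter Topology Metric
open scoped ENNReal NNReal ContDiff RealInnerProductSpace

namespace Pool.Agent.H32.IC

open Pool.Agent.H94.IC

namespace FCE

open Pool.Agent.H29.IC (inner_gr norm_gr gr_apply contDiffAt_gr)

/-- the two sides -/
noncomputable def sg (b : Bool) : ℝ := if b = true then -1 else 1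

/-- identity or reflection -/
noncomputable def eT (b : Bool) : E ≃ₗᵢ[ℝ] E :=
  LinearIsometryEquiv.piLpCongrRight 2 (fun i : Fin 3 =>
    if i = 2 ∧ b = true then LinearIsometryEquiv.neg ℝ else LinearIsometryEquiv.refl ℝ ℝ)

theorem eT_two (b : Bool) (y : E) : (eT b y) 2 = sg b * y 2 := by
  unfold eT sg
  cases b <;> simp [LinearIsometryEquiv.piLpCongrRight_apply]

theorem eTs_two (b : Bool) (y : E) : ((eT b).symm y) 2 = sg b * y 2 := by
  have h1 := eT_two b ((eT b).symm y)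
  rw [(eT b).apply_symm_apply] at h1
  have h2 : sg b * sg b = 1 := by unfold sg; cases b <;> simp
  rw [h1, ← mul_assoc, h2, one_mul]

/-- the affine map -/
noncomputable def aff (b : Bool) (y0 : E) : E ≃ₜ E :=
  (eT b).toHomeomorph.trans (Homeomorph.addRight y0)

theorem aff_apply (b : Bool) (y0 y : E) : aff b y0 y = eT b y + y0 := rfl

theorem aff_symm (b : Bool) (y0 y : E) : (aff b y0).symm y = (eT b).symm (y - y0) := by
  rw [Homeomorph.symm_apply_eq, aff_apply, (eT b).apply_symm_apply]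
  simp

/-- the chart -/
noncomputable def PS (Φ : OpenPartialHomeomorph E E) (b : Bool) (y0 : E) :
    OpenPartialHomeomorph E E := (aff b y0).transOpenPartialHomeomorph Φ

theorem PS_apply (Φ : OpenPartialHomeomorph E E) (b : Bool) (y0 y : E) :
    PS Φ b y0 y = Φ (eT b y + y0) := rfl

theorem PS_symm (Φ : OpenPartialHomeomorph E E) (b : Bool) (y0 z : E) :
    (PS Φ b y0).symm z = (eT b).symm (Φ.symm z - y0) := by
  have : (PS Φ b y0).symm z = (aff b y0).symm (Φ.symm z) := rfl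
  rw [this, aff_symm]

theorem PS_source (Φ : OpenPartialHomeomorph E E) (b : Bool) (y0 : E) :
    (PS Φ b y0).source = {y | eT b y + y0 ∈ Φ.source} := rfl

theorem PS_target (Φ : OpenPartialHomeomorph E E) (b : Bool) (y0 : E) :
    (PS Φ b y0).target = Φ.target := rfl

variable {Ω S : Set E} {Φ : OpenPartialHomeomorph E E} {δ : ℝ} {u : E → ℝ}

theorem flat_src (ht : Tube Ω S Φ δ) : flatDisc ⊆ Φ.source :=
  (self_subset_cthickening _).trans ht.src

theorem ch_of (ht : Tube Ω S Φ δ) (b : Bool) (y0 : E) (r : ℝ) (hr : 0 < r)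
    (hsrc : closedBall y0 (4 * r) ⊆ Φ.source)
    (hdisc : ∀ y ∈ closedBall y0 (4 * r), y 0 ^ 2 + y 1 ^ 2 ≤ 1) (h0 : y0 2 = 0) :
    Ch Ω S (PS Φ b y0) r := by
  have hmem : ∀ y : E, y ∈ closedBall (0 : E) (4 * r) → eT b y + y0 ∈ closedBall y0 (4 * r) := by
    intro y hy
    rw [mem_closedBall_zero_iff] at hy
    rw [mem_closedBall, dist_eq_norm]
    simpa using hy
  have ha : ContDiff ℝ ∞ (fun y => eT b y + y0) := (eT b).contDiff.add contDiff_const
  have hb : ContDiff ℝ ∞ (fun y => (eT b).symm (y - y0)) :=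
    (eT b).symm.contDiff.comp (contDiff_id.sub contDiff_const)
  refine ⟨hr, fun y hy => hsrc (hmem y hy), ht.tgt, ?_, ?_, ?_⟩
  · exact ht.sm.comp ha.contDiffOn (fun y hy => hy)
  · have h1 : ContDiffOn ℝ ∞ (fun z => (eT b).symm (Φ.symm z - y0)) Φ.target :=
      hb.comp_contDiffOn ht.sms
    exact h1.congr (fun z _ => PS_symm Φ b y0 z)
  · intro y hy
    have hy' := hmem y (ball_subset_closedBall hy)
    have e1 : (eT b y + y0) 2 = sg b * y 2 := by
      have : (eT b y + y0) 2 = (eT b y) 2 + y0 2 := rfl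
      rw [this, eT_two, h0, add_zero]
    have hs : sg b ≠ 0 := by unfold sg; cases b <;> simp
    rw [PS_apply, ← ht.img]
    constructor
    · rintro ⟨z, hz, hzy⟩
      have h2 : z = eT b y + y0 := Φ.injOn (flat_src ht hz) (hsrc hy') hzy
      have h3 := hz.1
      rw [h2, e1] at h3
      exact (mul_eq_zero.1 h3).resolve_left hs
    · intro hy2
      refine mem_image_of_mem _ ⟨?_, hdisc _ hy'⟩
      rw [e1, hy2, mul_zero]

theorem S_closed (ht : Tube Ω S Φ δ) : IsClosed S := by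
  have h1 : IsCompact flatDisc := by
    refine Metric.isCompact_of_isClosed_isBounded ?_ ?_
    · have c2 := (EuclideanSpace.proj (2 : Fin 3) : E →L[ℝ] ℝ).continuous
      have c0 := (EuclideanSpace.proj (0 : Fin 3) : E →L[ℝ] ℝ).continuous
      have c1 := (EuclideanSpace.proj (1 : Fin 3) : E →L[ℝ] ℝ).continuous
      exact (isClosed_eq c2 continuous_const).inter
        (isClosed_le ((c0.pow 2).add (c1.pow 2)) continuous_const)
    · rw [isBounded_iff_forall_norm_le]
      refine ⟨1, fun y hy => ?_⟩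
      have h2 : ‖y‖ ^ 2 ≤ 1 := by
        rw [EuclideanSpace.norm_sq_eq, Fin.sum_univ_three]
        simp only [Real.norm_eq_abs, sq_abs]
        have := hy.1
        have := hy.2
        rw [hy.1]
        linarith
      nlinarith [norm_nonneg y]
  rw [← ht.img]
  exact (h1.image_of_continuousOn (ht.sm.continuousOn.mono (flat_src ht))).isClosed

/-- the sets on one side -/
def DD (b : Bool) (y0 : E) (ρ d : ℝ) : Set E :=
  {y | ‖y - y0‖ < ρ ∧ 0 < sg b * y 2 ∧ sg b * y 2 < d}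

theorem img_DD (b : Bool) (y0 : E) (h0 : y0 2 = 0) (ρ d : ℝ) :
    PS Φ b y0 '' (HB ρ ∩ {y | y 2 < d}) = Φ '' (DD b y0 ρ d) := by
  have h1 : (fun y => eT b y + y0) '' (HB ρ ∩ {y | y 2 < d}) = DD b y0 ρ d := by
    ext z
    constructor
    · rintro ⟨y, ⟨⟨hy1, hy2⟩, hy3⟩, rfl⟩
      have e1 : (eT b y + y0) 2 = sg b * y 2 := by
        have : (eT b y + y0) 2 = (eT b y) 2 + y0 2 := rfl
        rw [this, eT_two, h0, add_zero]
      have h2 : sg b * (sg b * y 2) = y 2 := by unfold sg; cases b <;> simp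
      refine ⟨by simpa using hy1, ?_, ?_⟩
      · rw [e1, h2]; exact hy2
      · rw [e1, h2]; exact hy3
    · rintro ⟨hz1, hz2, hz3⟩
      have e1 : ((eT b).symm (z - y0)) 2 = sg b * z 2 := by
        rw [eTs_two]
        have : (z - y0) 2 = z 2 - y0 2 := rfl
        rw [this, h0, sub_zero]
      refine ⟨(eT b).symm (z - y0), ⟨⟨?_, ?_⟩, ?_⟩, ?_⟩
      · rw [(eT b).symm.norm_map]; exact hz1
      · rw [e1]; exact hz2
      · show ((eT b).symm (z - y0)) 2 < d
        rw [e1]; exact hz3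
      · simp
  rw [← h1, image_image]
  rfl

theorem gr_sg (b : Bool) (y0 : E) (h0 : y0 2 = 0) (x : E) :
    |⟪gr u x, gr (fun z => ((PS Φ b y0).symm z) 2) x⟫| = |⟪gr u x, gr (fun z => (Φ.symm z) 2) x⟫| := by
  have h1 : (fun z => ((PS Φ b y0).symm z) 2) = fun z => sg b * (Φ.symm z) 2 := by
    funext z
    rw [PS_symm, eTs_two]
    have : (Φ.symm z - y0) 2 = (Φ.symm z) 2 - y0 2 := rfl
    rw [this, h0, sub_zero]
  rw [h1]
  cases b
  · simp [sg]
  · have h2 : (fun z => sg true * (Φ.symm z) 2) = fun z => -((Φ.symm z) 2) := by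
      funext z
      simp [sg]
    have h3 : gr (fun z => -((Φ.symm z) 2)) x = - gr (fun z => (Φ.symm z) 2) x := by
      unfold gr gradient
      rw [fderiv_fun_neg, map_neg]
    rw [h2, h3, inner_neg_right, abs_neg]

/-- the integrand -/
noncomputable def ff (Φ : OpenPartialHomeomorph E E) (u : E → ℝ) (x : E) : ℝ :=
  |⟪gr u x, gr (fun z => (Φ.symm z) 2) x⟫|

theorem exists_rad (ht : Tube Ω S Φ δ) {y0 : E} (h0 : y0 2 = 0) (h1 : y0 0 ^ 2 + y0 1 ^ 2 < 1) :
    ∃ r > 0, closedBall y0 (4 * r) ⊆ Φ.source ∧ ∀ y ∈ closedBall y0 (4 * r), y 0 ^ 2 + y 1 ^ 2 ≤ 1 := by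
  have c0 := (EuclideanSpace.proj (0 : Fin 3) : E →L[ℝ] ℝ).continuous
  have c1 := (EuclideanSpace.proj (1 : Fin 3) : E →L[ℝ] ℝ).continuous
  have ho : IsOpen {y : E | y 0 ^ 2 + y 1 ^ 2 < 1} :=
    isOpen_lt ((c0.pow 2).add (c1.pow 2)) continuous_const
  have hy : y0 ∈ Φ.source := flat_src ht ⟨h0, h1.le⟩
  obtain ⟨ε, hε, hb⟩ := Metric.isOpen_iff.1 (Φ.open_source.inter ho) y0 ⟨hy, h1⟩
  refine ⟨ε / 8, by positivity, ?_, ?_⟩
  · intro y hy
    refine (hb ?_).1
    rw [mem_closedBall] at hy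
    rw [mem_ball]
    linarith
  · intro y hy
    refine le_of_lt (hb ?_ : y ∈ Φ.source ∩ {y : E | y 0 ^ 2 + y 1 ^ 2 < 1}).2
    rw [mem_closedBall] at hy
    rw [mem_ball]
    linarith

theorem int_ff (hbd : Bornology.IsBounded Ω) (ht : Tube Ω S Φ δ) (hu : WN Ω S u) {y0 : E} {R : ℝ}
    (hsrc : closedBall y0 R ⊆ Φ.source) : IntegrableOn (ff Φ u) (Φ '' (closedBall y0 R)) := by
  have hcpt : IsCompact (Φ '' (closedBall y0 R)) :=
    (isCompact_closedBall y0 R).image_of_continuousOn (ht.sm.continuousOn.mono hsrc)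
  have hsub : Φ '' (closedBall y0 R) ⊆ Φ.target := by
    rintro _ ⟨y, hy, rfl⟩
    exact Φ.map_source (hsrc hy)
  have hsm : ContDiffOn ℝ ∞ (fun z => (Φ.symm z) 2) Φ.target :=
    (EuclideanSpace.proj (2 : Fin 3) : E →L[ℝ] ℝ).contDiff.comp_contDiffOn ht.sms
  have hc : ContinuousOn (gr (fun z => (Φ.symm z) 2)) (Φ '' (closedBall y0 R)) :=
    (gr_contOn Φ.open_target hsm).mono hsub
  obtain ⟨C, hC⟩ := hcpt.exists_bound_of_continuousOn hc
  have hfin := Pool.Agent.H29.IC.finite_restrict hbd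
  have h1 : IntegrableOn (gr u) (Φ '' (closedBall y0 R)) :=
    IntegrableOn.mono_set (Pool.Agent.H29.IC.int_of_L2 hu.g2) (hsub.trans ht.tgt)
  have hm : AEStronglyMeasurable (fun x => ⟪gr u x, gr (fun z => (Φ.symm z) 2) x⟫)
      (volume.restrict (Φ '' (closedBall y0 R))) :=
    h1.aestronglyMeasurable.inner (hc.aestronglyMeasurable hcpt.isClosed.measurableSet)
  have hm' : AEStronglyMeasurable (ff Φ u) (volume.restrict (Φ '' (closedBall y0 R))) := hm.norm
  refine Integrable.mono' (h1.norm.mul_const C) hm' ?_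
  filter_upwards [ae_restrict_mem hcpt.isClosed.measurableSet] with x hx
  unfold ff
  rw [Real.norm_eq_abs, abs_abs]
  refine (abs_real_inner_le_norm _ _).trans ?_
  exact mul_le_mul_of_nonneg_left (hC x hx) (norm_nonneg _)

theorem loc (hRG2 : T_RG2) (hΩ : IsOpen Ω) (hbd : Bornology.IsBounded Ω) (ht : Tube Ω S Φ δ)
    (hu : WN Ω S u) {y0 : E} (h0 : y0 2 = 0) (h1 : y0 0 ^ 2 + y0 1 ^ 2 < 1) :
    ∃ ρ > 0, ∀ b : Bool, (∀ d, IntegrableOn (ff Φ u) (Φ '' (DD b y0 ρ d))) ∧
      Tendsto (fun d : ℝ => d⁻¹ * ∫ x in Φ '' (DD b y0 ρ d), ff Φ u x) (𝓝[>] 0) (𝓝 0) := by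
  obtain ⟨r, hr, hsrc, hdisc⟩ := exists_rad ht h0 h1
  refine ⟨r / 2, by positivity, fun b => ⟨fun d => ?_, ?_⟩⟩
  · refine (int_ff hbd ht hu hsrc).mono_set (image_mono ?_)
    rintro y ⟨hy, _⟩
    rw [mem_closedBall, dist_eq_norm]
    linarith
  · have h2 := up hRG2 hΩ (hΩ.sdiff (S_closed ht)) (ch_of ht b y0 r hr hsrc hdisc h0) hu
    refine h2.congr (fun d => ?_)
    rw [img_DD b y0 h0]
    congr 1
    refine integral_congr_ae (ae_of_all _ (fun x => ?_))
    exact gr_sg b y0 h0 x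

end FCE

open FCE in
theorem fce (hRG2 : T_RG2) : T_FCE := by
  intro Ω S Φ δ u c hΩ hbd ht hu hc
  set K : Set E := {y | y 2 = 0 ∧ y 0 ^ 2 + y 1 ^ 2 ≤ c} with hK
  have hKc : IsCompact K := by
    refine Metric.isCompact_of_isClosed_isBounded ?_ ?_
    · have c2 := (EuclideanSpace.proj (2 : Fin 3) : E →L[ℝ] ℝ).continuous
      have c0 := (EuclideanSpace.proj (0 : Fin 3) : E →L[ℝ] ℝ).continuous
      have c1 := (EuclideanSpace.proj (1 : Fin 3) : E →L[ℝ] ℝ).continuous
      exact (isClosed_eq c2 continuous_const).inter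
        (isClosed_le ((c0.pow 2).add (c1.pow 2)) continuous_const)
    · rw [isBounded_iff_forall_norm_le]
      refine ⟨1, fun y hy => ?_⟩
      have h2 : ‖y‖ ^ 2 ≤ 1 := by
        rw [EuclideanSpace.norm_sq_eq, Fin.sum_univ_three]
        simp only [Real.norm_eq_abs, sq_abs]
        have := hy.2
        rw [hy.1]
        linarith
      nlinarith [norm_nonneg y]
  have hloc : ∀ y : E, ∃ ρ > 0, y ∈ K → ∀ b : Bool,
      (∀ d, IntegrableOn (ff Φ u) (Φ '' (DD b y ρ d))) ∧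
      Tendsto (fun d : ℝ => d⁻¹ * ∫ x in Φ '' (DD b y ρ d), ff Φ u x) (𝓝[>] 0) (𝓝 0) := by
    intro y
    by_cases hy : y ∈ K
    · obtain ⟨ρ, hρ, h⟩ := loc hRG2 hΩ hbd ht hu hy.1 (lt_of_le_of_lt hy.2 hc)
      exact ⟨ρ, hρ, fun _ => h⟩
    · exact ⟨1, one_pos, fun h => absurd h hy⟩
  choose ρ hρ hlim using hloc
  obtain ⟨t, htK, hcov⟩ := hKc.elim_nhds_subcover (fun y => ball y (ρ y))
    (fun y _ => ball_mem_nhds y (hρ y))
  have hVo : IsOpen (⋃ y ∈ t, ball y (ρ y)) := isOpen_biUnion (fun y _ => isOpen_ball)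
  obtain ⟨η, hη, hthick⟩ := hKc.exists_thickening_subset_open hVo hcov
  -- the limit of the sum
  have hsum : Tendsto (fun d : ℝ => ∑ i : {y // y ∈ t} × Bool,
      d⁻¹ * ∫ x in Φ '' (DD i.2 i.1.1 (ρ i.1.1) d), ff Φ u x) (𝓝[>] 0) (𝓝 0) := by
    have h1 : Tendsto (fun d : ℝ => ∑ i : {y // y ∈ t} × Bool,
        d⁻¹ * ∫ x in Φ '' (DD i.2 i.1.1 (ρ i.1.1) d), ff Φ u x) (𝓝[>] 0)
        (𝓝 (∑ _i : {y // y ∈ t} × Bool, (0 : ℝ))) :=
      tendsto_finsetSum _ (fun i _ => (hlim i.1.1 (htK i.1.1 i.1.2) i.2).2)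
    simpa using h1
  refine tendsto_of_tendsto_of_tendsto_of_le_of_le' tendsto_const_nhds hsum ?_ ?_
  · filter_upwards [self_mem_nhdsWithin] with d hd
    have hd' : 0 < d := hd
    exact mul_nonneg (by positivity) (integral_nonneg (fun x => abs_nonneg _))
  · filter_upwards [self_mem_nhdsWithin, mem_nhdsWithin_of_mem_nhds (Iio_mem_nhds hη)] with d hd hdη
    have hd' : 0 < d := hd
    have hdη' : d < η := hdη
    rw [← Finset.mul_sum]
    refine mul_le_mul_of_nonneg_left ?_ (by positivity)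
    have hsub : Φ '' {y | y 0 ^ 2 + y 1 ^ 2 ≤ c ∧ |y 2| < d ∧ y 2 ≠ 0}
        ⊆ ⋃ i : {y // y ∈ t} × Bool, Φ '' (DD i.2 i.1.1 (ρ i.1.1) d) := by
      rintro _ ⟨y, ⟨hy1, hy2, hy3⟩, rfl⟩
      have hyV : y ∈ ⋃ y ∈ t, ball y (ρ y) := by
        apply hthick
        rw [mem_thickening_iff]
        refine ⟨y - y 2 • ev 2, ⟨?_, ?_⟩, ?_⟩
        · simp
        · simpa using hy1
        · rw [dist_eq_norm]
          have : y - (y - y 2 • ev 2) = y 2 • ev 2 := by abel
          rw [this, norm_smul]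
          simp only [PiLp.norm_single, norm_one, mul_one, Real.norm_eq_abs]
          linarith
      simp only [mem_iUnion] at hyV
      obtain ⟨z, hz, hyz⟩ := hyV
      rw [mem_ball, dist_eq_norm] at hyz
      rw [mem_iUnion]
      rcases lt_or_gt_of_ne hy3 with h5 | h5
      · refine ⟨(⟨z, hz⟩, true), mem_image_of_mem _ ⟨hyz, ?_, ?_⟩⟩
        · simp only [sg, if_true]
          linarith
        · simp only [sg, if_true]
          rw [abs_of_neg h5] at hy2
          linarith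
      · refine ⟨(⟨z, hz⟩, false), mem_image_of_mem _ ⟨hyz, ?_, ?_⟩⟩
        · simp only [sg, Bool.false_eq_true, if_false]
          linarith
        · simp only [sg, Bool.false_eq_true, if_false]
          rw [abs_of_pos h5] at hy2
          linarith
    have hle : (volume : Measure E).restrict (Φ '' {y | y 0 ^ 2 + y 1 ^ 2 ≤ c ∧ |y 2| < d ∧ y 2 ≠ 0})
        ≤ ∑ i : {y // y ∈ t} × Bool, volume.restrict (Φ '' (DD i.2 i.1.1 (ρ i.1.1) d)) := by
      refine (Measure.restrict_mono hsub le_rfl).trans (Measure.restrict_iUnion_le.trans ?_)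
      rw [Measure.sum_fintype]
    have hint : ∀ i ∈ (Finset.univ : Finset ({y // y ∈ t} × Bool)),
        Integrable (ff Φ u) (volume.restrict (Φ '' (DD i.2 i.1.1 (ρ i.1.1) d))) :=
      fun i _ => (hlim i.1.1 (htK i.1.1 i.1.2) i.2).1 d
    have h7 := integral_mono_measure hle (f := ff Φ u) (ae_of_all _ (fun x => abs_nonneg _))
      (integrable_finsetSum_measure.2 hint)
    rw [integral_finsetSum_measure hint] at h7
    exact h7

end Pool.Agent.H32.IC
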