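import Mathlib
import Pool.Agent.H94.IC.Targets3
import Pool.Agent.H29.IC.HSM

/-!
# Insulating cracks, module NSR: series of harmonic functions are noise functions
-/

open MeasureTheory Set Filter Topology Metric
open scoped ENNReal NNReal ContDiff RealInnerProductSpace Manifold

namespace Pool.Agent.H32.IC

open Pool.Agent.H94.IC

namespace NSR

/-- smooth cutoffs -/
theorem cutoff {S O : Set E} (hS : IsCompact S) (hO : IsOpen O) (hSO : S ⊆ O) :
    ∃ (f : E → ℝ) (t : Set E), IsCompact t ∧ t ⊆ O ∧ ContDiff ℝ ∞ f ∧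
      (∀ x ∈ S, ∀ᶠ y in 𝓝 x, f y = 1) ∧ ∀ x ∉ t, f x = 0 := by
  obtain ⟨t, ht, hSt, htO⟩ := exists_compact_between hS hO hSO
  obtain ⟨f, hf1, hf0, _⟩ := exists_contMDiffMap_one_nhds_of_subset_interior
    (n := (⊤ : ℕ∞)) (I := 𝓘(ℝ, E)) hS.isClosed hSt
  refine ⟨f, t, ht, htO, f.contMDiff.contDiff, ?_, hf0⟩
  intro x hx
  exact (eventually_nhdsSet_iff_forall.1 hf1) x hx

/-- smooth extension from a neighbourhood of a compact set -/
theorem ext_near {K O : Set E} (hK : IsCompact K) (hO : IsOpen O) (hKO : K ⊆ O) {V : E → ℝ}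
    (hV : ContDiffOn ℝ ∞ V O) :
    ∃ φ : E → ℝ, ContDiff ℝ ∞ φ ∧ HasCompactSupport φ ∧ ∀ x ∈ K, φ =ᶠ[𝓝 x] V := by
  obtain ⟨f, t, ht, htO, hf, hf1, hf0⟩ := cutoff hK hO hKO
  refine ⟨fun x => f x * V x, ?_, ?_, ?_⟩
  · rw [contDiff_iff_contDiffAt]
    intro x
    by_cases hx : x ∈ O
    · exact hf.contDiffAt.mul (hV.contDiffAt (hO.mem_nhds hx))
    · have h1 : tᶜ ∈ 𝓝 x := ht.isClosed.isOpen_compl.mem_nhds (fun h => hx (htO h))
      refine (contDiffAt_const (c := (0 : ℝ))).congr_of_eventuallyEq ?_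
      filter_upwards [h1] with y hy
      rw [hf0 y hy, zero_mul]
  · refine HasCompactSupport.intro ht (fun x hx => ?_)
    rw [hf0 x hx, zero_mul]
  · intro x hx
    filter_upwards [hf1 x hx] with y hy
    rw [hy, one_mul]

theorem gr_congr {f g : E → ℝ} {x : E} (h : f =ᶠ[𝓝 x] g) : gr f x = gr g x := by
  unfold gr gradient
  rw [h.fderiv_eq (𝕜 := ℝ)]

theorem pd_congr {f g : E → ℝ} {x : E} (k : Fin 3) (h : f =ᶠ[𝓝 x] g) : pd k f =ᶠ[𝓝 x] pd k g := by
  filter_upwards [h.fderiv (𝕜 := ℝ)] with y hy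
  unfold pd
  rw [hy]

theorem lap_congr {f g : E → ℝ} {x : E} (h : f =ᶠ[𝓝 x] g) :
    ∑ k : Fin 3, pd k (pd k f) x = ∑ k : Fin 3, pd k (pd k g) x := by
  refine Finset.sum_congr rfl (fun k _ => ?_)
  exact (pd_congr k (pd_congr k h)).eq_of_nhds

theorem gr_sum {ι : Type*} (s : Finset ι) (φ : ι → E → ℝ) (h : ∀ j, ContDiff ℝ ∞ (φ j)) (x : E) :
    gr (fun x => ∑ j ∈ s, φ j x) x = ∑ j ∈ s, gr (φ j) x := by
  unfold gr gradient
  rw [fderiv_fun_sum (fun j _ => ((h j).differentiable (by simp)) x), map_sum]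

theorem pd_sum {ι : Type*} (s : Finset ι) (φ : ι → E → ℝ) (k : Fin 3) (h : ∀ j, ContDiff ℝ ∞ (φ j)) :
    pd k (fun x => ∑ j ∈ s, φ j x) = fun x => ∑ j ∈ s, pd k (φ j) x := by
  funext x
  unfold pd
  rw [fderiv_fun_sum (fun j _ => ((h j).differentiable (by simp)) x)]
  simp

/-- the data: finite sums with smooth compactly supported extensions -/
structure Dat (Ω : Set E) (V : ℕ → E → ℝ) (b : ℕ → ℝ) (φ : ℕ → E → ℝ) : Prop where
  dom : Dom Ω
  sm : ∀ j, ContDiff ℝ ∞ (φ j)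
  cs : ∀ j, HasCompactSupport (φ j)
  nh : ∀ j, ∀ x ∈ closure Ω, φ j =ᶠ[𝓝 x] V j
  lap : ∀ j, ∀ x ∈ closure Ω, ∑ k : Fin 3, pd k (pd k (φ j)) x = 0
  sb : Summable b
  bd : ∀ j, ∀ x ∈ closure Ω, |V j x| ≤ b j ∧ ‖gr (V j) x‖ ≤ b j

/-- finite sums -/
noncomputable def PS (φ : ℕ → E → ℝ) (n : ℕ) (x : E) : ℝ := ∑ j ∈ Finset.range n, φ j x

variable {Ω : Set E} {V : ℕ → E → ℝ} {b : ℕ → ℝ} {φ : ℕ → E → ℝ}

theorem ps_sm (h : Dat Ω V b φ) (n : ℕ) : ContDiff ℝ ∞ (PS φ n) :=
  ContDiff.sum (fun j _ => h.sm j)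

theorem ps_cs (h : Dat Ω V b φ) (n : ℕ) : HasCompactSupport (PS φ n) := by
  unfold PS
  induction n with
  | zero =>
    simp only [Finset.range_zero, Finset.sum_empty]
    exact HasCompactSupport.zero
  | succ n ih =>
    simp only [Finset.sum_range_succ]
    exact HasCompactSupport.add ih (h.cs n)

theorem ps_gr (h : Dat Ω V b φ) (n : ℕ) (x : E) :
    gr (PS φ n) x = ∑ j ∈ Finset.range n, gr (φ j) x := gr_sum _ _ h.sm x

theorem ps_lap (h : Dat Ω V b φ) (n : ℕ) (x : E) (hx : x ∈ closure Ω) :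
    ∑ k : Fin 3, pd k (pd k (PS φ n)) x = 0 := by
  have h1 : ∀ k : Fin 3, pd k (pd k (PS φ n)) = fun x => ∑ j ∈ Finset.range n, pd k (pd k (φ j)) x := by
    intro k
    unfold PS
    rw [pd_sum _ _ k h.sm,
      pd_sum _ (fun j => pd k (φ j)) k (fun j => Pool.Agent.H29.IC.contDiff_pd k (h.sm j))]
  simp only [h1]
  rw [Finset.sum_comm]
  exact Finset.sum_eq_zero (fun j _ => h.lap j x hx)

theorem b_nonneg (h : Dat Ω V b φ) (j : ℕ) : 0 ≤ b j := by
  obtain ⟨x, hx⟩ := h.dom.conn.nonempty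
  exact (abs_nonneg _).trans (h.bd j x (subset_closure hx)).1

theorem val_eq (h : Dat Ω V b φ) (j : ℕ) (x : E) (hx : x ∈ closure Ω) : φ j x = V j x :=
  (h.nh j x hx).eq_of_nhds

theorem gr_eq' (h : Dat Ω V b φ) (j : ℕ) (x : E) (hx : x ∈ closure Ω) :
    gr (φ j) x = gr (V j) x := gr_congr (h.nh j x hx)

theorem unif (h : Dat Ω V b φ) :
    TendstoUniformlyOn (PS φ) (fun x => ∑' j, V j x) atTop (closure Ω) := by
  have h1 := tendstoUniformlyOn_tsum_nat (f := V) h.sb (s := closure Ω)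
    (fun n x hx => (h.bd n x hx).1)
  refine h1.congr (Eventually.of_forall (fun n x hx => ?_))
  exact Finset.sum_congr rfl (fun j _ => (val_eq h j x hx).symm)

theorem unifg (h : Dat Ω V b φ) :
    TendstoUniformlyOn (fun n => gr (PS φ n)) (fun x => ∑' j, gr (V j) x) atTop (closure Ω) := by
  have h1 := tendstoUniformlyOn_tsum_nat (f := fun j => gr (V j)) h.sb (s := closure Ω)
    (fun n x hx => (h.bd n x hx).2)
  refine h1.congr (Eventually.of_forall (fun n x hx => ?_))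
  show ∑ j ∈ Finset.range n, gr (V j) x = gr (PS φ n) x
  rw [ps_gr h]
  exact Finset.sum_congr rfl (fun j _ => (gr_eq' h j x hx).symm)

theorem ps_bd (h : Dat Ω V b φ) (n : ℕ) (x : E) (hx : x ∈ closure Ω) :
    |PS φ n x| ≤ ∑' j, b j := by
  unfold PS
  refine (Finset.abs_sum_le_sum_abs _ _).trans ?_
  refine (Finset.sum_le_sum (fun j _ => ?_)).trans
    (h.sb.sum_le_tsum (Finset.range n) (fun j _ => b_nonneg h j))
  rw [val_eq h j x hx]
  exact (h.bd j x hx).1

theorem ps_bdg (h : Dat Ω V b φ) (n : ℕ) (x : E) (hx : x ∈ closure Ω) :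
    ‖gr (PS φ n) x‖ ≤ ∑' j, b j := by
  rw [ps_gr h]
  refine (norm_sum_le _ _).trans ?_
  refine (Finset.sum_le_sum (fun j _ => ?_)).trans
    (h.sb.sum_le_tsum (Finset.range n) (fun j _ => b_nonneg h j))
  rw [gr_eq' h j x hx]
  exact (h.bd j x hx).2

theorem U_bd (h : Dat Ω V b φ) (x : E) (hx : x ∈ closure Ω) : |∑' j, V j x| ≤ ∑' j, b j :=
  le_of_tendsto ((unif h).tendsto_at hx).abs (Eventually.of_forall (fun n => ps_bd h n x hx))

theorem GU_bd (h : Dat Ω V b φ) (x : E) (hx : x ∈ closure Ω) : ‖∑' j, gr (V j) x‖ ≤ ∑' j, b j :=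
  le_of_tendsto ((unifg h).tendsto_at hx).norm (Eventually.of_forall (fun n => ps_bdg h n x hx))

theorem U_meas (h : Dat Ω V b φ) (μ : Measure E) (hμ : ∀ᵐ x ∂μ, x ∈ closure Ω) :
    AEStronglyMeasurable (fun x => ∑' j, V j x) μ := by
  refine aestronglyMeasurable_of_tendsto_ae atTop
    (fun n => (ps_sm h n).continuous.aestronglyMeasurable) ?_
  filter_upwards [hμ] with x hx
  exact (unif h).tendsto_at hx

theorem GU_meas (h : Dat Ω V b φ) (μ : Measure E) (hμ : ∀ᵐ x ∂μ, x ∈ closure Ω) :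
    AEStronglyMeasurable (fun x => ∑' j, gr (V j) x) μ := by
  refine aestronglyMeasurable_of_tendsto_ae atTop
    (fun n => (Pool.Agent.H29.IC.contDiff_gr (ps_sm h n)).continuous.aestronglyMeasurable) ?_
  filter_upwards [hμ] with x hx
  exact (unifg h).tendsto_at hx

theorem ae_Om (h : Dat Ω V b φ) : ∀ᵐ x ∂(volume.restrict Ω), x ∈ closure Ω := by
  filter_upwards [ae_restrict_mem h.dom.op.measurableSet] with x hx
  exact subset_closure hx

theorem ae_si {σ : Measure E} {ν : E → E} (hσ : IsSurf Ω σ ν) : ∀ᵐ x ∂σ, x ∈ closure Ω := by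
  filter_upwards [Pool.Agent.H29.IC.ae_frontier hσ] with x hx
  exact frontier_subset_closure hx

/-- the volume side of the trace formula passes to the limit -/
theorem lim_left (h : Dat Ω V b φ) {a : E → ℝ} {X : E → E} (ha : Integrable a (volume.restrict Ω))
    (hX : Integrable X (volume.restrict Ω)) :
    Tendsto (fun n => ∫ x in Ω, (PS φ n x * a x + ⟪gr (PS φ n) x, X x⟫)) atTop
      (𝓝 (∫ x in Ω, ((∑' j, V j x) * a x + ⟪∑' j, gr (V j) x, X x⟫))) := by
  refine tendsto_integral_of_dominated_convergence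
    (fun x => (∑' j, b j) * |a x| + (∑' j, b j) * ‖X x‖) ?_ ?_ ?_ ?_
  · intro n
    exact ((ps_sm h n).continuous.aestronglyMeasurable.mul ha.aestronglyMeasurable).add
      ((Pool.Agent.H29.IC.contDiff_gr (ps_sm h n)).continuous.aestronglyMeasurable.inner
        hX.aestronglyMeasurable)
  · exact (ha.abs.const_mul _).add (hX.norm.const_mul _)
  · intro n
    filter_upwards [ae_Om h] with x hx
    rw [Real.norm_eq_abs]
    refine (abs_add_le _ _).trans (add_le_add ?_ ?_)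
    · rw [abs_mul]
      exact mul_le_mul_of_nonneg_right (ps_bd h n x hx) (abs_nonneg _)
    · refine (abs_real_inner_le_norm _ _).trans ?_
      exact mul_le_mul_of_nonneg_right (ps_bdg h n x hx) (norm_nonneg _)
  · filter_upwards [ae_Om h] with x hx
    exact (((unif h).tendsto_at hx).mul_const _).add
      (((unifg h).tendsto_at hx).inner tendsto_const_nhds)

/-- the boundary side: traces -/
theorem lim_tr (h : Dat Ω V b φ) {σ : Measure E} {ν : E → E} (hσ : IsSurf Ω σ ν) {a : E → ℝ}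
    (ha : Integrable a σ) :
    Tendsto (fun n => ∫ x, PS φ n x * a x ∂σ) atTop (𝓝 (∫ x, (∑' j, V j x) * a x ∂σ)) := by
  refine tendsto_integral_of_dominated_convergence (fun x => (∑' j, b j) * |a x|) ?_ ?_ ?_ ?_
  · intro n
    exact (ps_sm h n).continuous.aestronglyMeasurable.mul ha.aestronglyMeasurable
  · exact ha.abs.const_mul _
  · intro n
    filter_upwards [ae_si hσ] with x hx
    rw [norm_mul, Real.norm_eq_abs, Real.norm_eq_abs]
    exact mul_le_mul_of_nonneg_right (ps_bd h n x hx) (abs_nonneg _)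
  · filter_upwards [ae_si hσ] with x hx
    exact ((unif h).tendsto_at hx).mul_const _

/-- the boundary side: fluxes -/
theorem lim_fl (h : Dat Ω V b φ) {σ : Measure E} {ν : E → E} (hσ : IsSurf Ω σ ν) {a : E → ℝ}
    (ha : Integrable a σ) :
    Tendsto (fun n => ∫ x, a x * ⟪gr (PS φ n) x, ν x⟫ ∂σ) atTop
      (𝓝 (∫ x, a x * ⟪∑' j, gr (V j) x, ν x⟫ ∂σ)) := by
  refine tendsto_integral_of_dominated_convergence (fun x => |a x| * (∑' j, b j)) ?_ ?_ ?_ ?_
  · intro n
    exact ha.aestronglyMeasurable.mul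
      ((Pool.Agent.H29.IC.contDiff_gr (ps_sm h n)).continuous.aestronglyMeasurable.inner hσ.meas)
  · exact ha.abs.mul_const _
  · intro n
    filter_upwards [ae_si hσ, hσ.unit] with x hx hu
    rw [norm_mul, Real.norm_eq_abs, Real.norm_eq_abs]
    refine mul_le_mul_of_nonneg_left ?_ (abs_nonneg _)
    refine (abs_real_inner_le_norm _ _).trans ?_
    rw [hu, mul_one]
    exact ps_bdg h n x hx
  · filter_upwards [ae_si hσ] with x hx
    exact (((unifg h).tendsto_at hx).inner tendsto_const_nhds).const_mul _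

theorem U_cont (h : Dat Ω V b φ) : ContinuousOn (fun x => ∑' j, V j x) (closure Ω) :=
  (unif h).continuousOn (Frequently.of_forall (fun n => (ps_sm h n).continuous.continuousOn))

theorem GU_cont (h : Dat Ω V b φ) : ContinuousOn (fun x => ∑' j, gr (V j) x) (closure Ω) :=
  (unifg h).continuousOn (Frequently.of_forall (fun n =>
    (Pool.Agent.H29.IC.contDiff_gr (ps_sm h n)).continuous.continuousOn))

theorem U_memLp (h : Dat Ω V b φ) (μ : Measure E) [IsFiniteMeasure μ]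
    (hμ : ∀ᵐ x ∂μ, x ∈ closure Ω) : MemLp (fun x => ∑' j, V j x) 2 μ := by
  refine MemLp.of_bound (U_meas h μ hμ) (∑' j, b j) ?_
  filter_upwards [hμ] with x hx
  exact U_bd h x hx

theorem GU_memLp (h : Dat Ω V b φ) (μ : Measure E) [IsFiniteMeasure μ]
    (hμ : ∀ᵐ x ∂μ, x ∈ closure Ω) : MemLp (fun x => ∑' j, gr (V j) x) 2 μ := by
  refine MemLp.of_bound (GU_meas h μ hμ) (∑' j, b j) ?_
  filter_upwards [hμ] with x hx
  exact GU_bd h x hx

theorem int_dv (h : Dat Ω V b φ) {X : E → E} (hX : ContDiff ℝ 1 X) (hc : HasCompactSupport X) :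
    Integrable (dv X) (volume.restrict Ω) :=
  ((Pool.Agent.H29.IC.continuous_dv hX).integrable_of_hasCompactSupport
    (Pool.Agent.H29.IC.hasCompactSupport_dv hc)).restrict

theorem hs (h : Dat Ω V b φ) {σ : Measure E} {ν : E → E} (hσ : IsSurf Ω σ ν) (S : Set E) :
    HS1 Ω S σ ν (fun x => ∑' j, V j x) (fun x => ∑' j, gr (V j) x) (fun x => ∑' j, V j x) := by
  have hf1 := Pool.Agent.H29.IC.finite_restrict h.dom.bdd
  have hf2 := hσ.fin
  refine ⟨U_memLp h _ (ae_Om h), GU_memLp h _ (ae_Om h), U_memLp h _ (ae_si hσ), ?_⟩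
  intro X hX hc hd
  have hX1 : ContDiff ℝ 1 X := hX.of_le (by norm_cast)
  have l1 := lim_left h (a := dv X) (X := X) (int_dv h hX1 hc)
    ((hX.continuous.integrable_of_hasCompactSupport hc).restrict)
  have l2 := lim_tr h hσ (a := fun x => ⟪X x, ν x⟫) (by
    have := Pool.Agent.H29.IC.int_right hσ (τ := fun _ => (1 : ℝ)) (memLp_const 1) hX1 hc
    simpa using this)
  refine tendsto_nhds_unique l1 (l2.congr (fun n => ?_))
  exact ((Pool.Agent.H29.IC.hs_smooth S h.dom.op h.dom.bdd hσ (ps_sm h n)).tr X hX hc hd).symm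

/-- the gradient -/
theorem hasGrad (h : Dat Ω V b φ) (x : E) (hx : x ∈ Ω) :
    HasFDerivAt (fun x => ∑' j, V j x)
      (InnerProductSpace.toDual ℝ E (∑' j, gr (V j) x)) x := by
  have hu : TendstoUniformlyOn (fun n x => InnerProductSpace.toDual ℝ E (gr (PS φ n) x))
      (fun x => InnerProductSpace.toDual ℝ E (∑' j, gr (V j) x)) atTop Ω := by
    have h1 := (InnerProductSpace.toDual ℝ E).isometry.uniformContinuous.comp_tendstoUniformlyOn
      ((unifg h).mono subset_closure)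
    exact h1
  refine hasFDerivAt_of_tendstoUniformlyOn h.dom.op hu (fun n x _ => ?_)
    (fun x hx => (unif h).tendsto_at (subset_closure hx)) hx
  exact (((ps_sm h n).differentiable (by simp)) x).hasGradientAt.hasFDerivAt

theorem grad (h : Dat Ω V b φ) (x : E) (hx : x ∈ Ω) :
    gr (fun x => ∑' j, V j x) x = ∑' j, gr (V j) x := by
  have h1 : HasGradientAt (fun x => ∑' j, V j x) (∑' j, gr (V j) x) x := hasGrad h x hx
  exact h1.gradient

theorem lap_dv {f : E → ℝ} (hf : ContDiff ℝ ∞ f) (x : E) :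
    dv (gr f) x = ∑ k : Fin 3, pd k (pd k f) x :=
  Pool.Agent.H29.IC.dv_gr (hf.contDiffAt.of_le (by norm_cast))

theorem gr_cs {f : E → ℝ} (hc : HasCompactSupport f) : HasCompactSupport (gr f) := by
  refine HasCompactSupport.intro (K := tsupport f) hc (fun x hx => ?_)
  have h1 : f =ᶠ[𝓝 x] 0 := notMem_tsupport_iff_eventuallyEq.mp hx
  rw [gr_congr h1]
  unfold gr gradient
  simp

/-- Green's formula for test functions -/
theorem green_test (h : Dat Ω V b φ) (n : ℕ) {f : E → ℝ} (hf : ContDiff ℝ ∞ f)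
    (hc : HasCompactSupport f) (hs : tsupport f ⊆ Ω) :
    ∫ x in Ω, PS φ n x * ∑ k : Fin 3, pd k (pd k f) x = 0 := by
  have h1 := Pool.Agent.H29.IC.contDiff_gr hf
  have h2 := Pool.Agent.H29.IC.contDiff_gr (ps_sm h n)
  set X : E → E := fun x => PS φ n x • gr f x - f x • gr (PS φ n) x with hX
  have hXs : ContDiff ℝ ∞ X := ((ps_sm h n).smul h1).sub (hf.smul h2)
  have hX0 : ∀ x ∉ tsupport f, X x = 0 := by
    intro x hx
    have e1 : f =ᶠ[𝓝 x] 0 := notMem_tsupport_iff_eventuallyEq.mp hx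
    have e2 : gr f x = 0 := by
      rw [gr_congr e1]
      unfold gr gradient
      simp
    simp only [hX]
    rw [e2, e1.eq_of_nhds]
    simp
  have hXc : HasCompactSupport X := HasCompactSupport.intro (K := tsupport f) hc hX0
  have key := Pool.Agent.H29.IC.integral_dv_eq_zero (hXs.of_le (by norm_cast)) hXc
  have hdv : ∀ x, dv X x = PS φ n x * (∑ k : Fin 3, pd k (pd k f) x)
      - f x * ∑ k : Fin 3, pd k (pd k (PS φ n)) x := by
    intro x
    have d1 : dv X x = dv (fun x => PS φ n x • gr f x) x - dv (fun x => f x • gr (PS φ n) x) x := by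
      unfold dv
      rw [← Finset.sum_sub_distrib]
      refine Finset.sum_congr rfl (fun k _ => ?_)
      have : fderiv ℝ X x = fderiv ℝ (fun x => PS φ n x • gr f x) x
          - fderiv ℝ (fun x => f x • gr (PS φ n) x) x :=
        fderiv_fun_sub ((((ps_sm h n).smul h1).differentiable (by simp)) x)
          (((hf.smul h2).differentiable (by simp)) x)
      rw [this]
      simp
    rw [d1, Pool.Agent.H29.IC.dv_smul (((ps_sm h n).differentiable (by simp)) x)
      ((h1.differentiable (by simp)) x),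
      Pool.Agent.H29.IC.dv_smul ((hf.differentiable (by simp)) x)
      ((h2.differentiable (by simp)) x), lap_dv hf, lap_dv (ps_sm h n),
      real_inner_comm (gr f x) (gr (PS φ n) x)]
    ring
  have hdv0 : ∀ x, x ∉ Ω → dv X x = 0 := by
    intro x hx
    apply Pool.Agent.H29.IC.dv_eq_zero_of_notMem
    intro hxt
    apply hx
    apply hs
    exact (closure_minimal (fun y hy => by
      by_contra hyn
      exact hy (hX0 y hyn)) (isClosed_tsupport f)) hxt
  rw [← key, ← setIntegral_eq_integral_of_forall_compl_eq_zero hdv0]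
  refine setIntegral_congr_fun h.dom.op.measurableSet (fun x hx => ?_)
  show _ = dv X x
  rw [hdv x, ps_lap h n x (subset_closure hx)]
  ring

theorem harmU (hWYL : T_WYL) (h : Dat Ω V b φ) : Harm Ω (fun x => ∑' j, V j x) := by
  have hf1 := Pool.Agent.H29.IC.finite_restrict h.dom.bdd
  obtain ⟨g, hg, hgU⟩ := hWYL Ω (fun x => ∑' j, V j x) h.dom.op (U_memLp h _ (ae_Om h)) (by
    intro f hf hc hs
    have l1 := lim_left h (a := fun x => ∑ k : Fin 3, pd k (pd k f) x) (X := fun _ => 0) (by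
      have e1 : (fun x => ∑ k : Fin 3, pd k (pd k f) x) = dv (gr f) := by
        funext x
        rw [lap_dv hf]
      rw [e1]
      exact int_dv h ((Pool.Agent.H29.IC.contDiff_gr hf).of_le (by norm_cast)) (gr_cs hc))
      (integrable_zero _ _ _)
    simp only [inner_zero_right, add_zero] at l1
    refine tendsto_nhds_unique l1 ?_
    refine (tendsto_const_nhds (x := (0 : ℝ))).congr (fun n => ?_)
    exact (green_test h n hf hc hs).symm)
  have heq : EqOn (fun x => ∑' j, V j x) g Ω :=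
    MeasureTheory.Measure.eqOn_open_of_ae_eq hgU h.dom.op ((U_cont h).mono subset_closure)
      hg.1.continuousOn
  refine ⟨hg.1.congr heq, ?_⟩
  intro x hx
  rw [lap_congr (heq.eventuallyEq_of_mem (h.dom.op.mem_nhds hx))]
  exact hg.2 x hx

theorem prof (h : Dat Ω V b φ) {σ : Measure E} {ν : E → E} (hσ : IsSurf Ω σ ν) :
    IsProfile σ (fun x => ⟪∑' j, gr (V j) x, ν x⟫) := by
  have hf2 := hσ.fin
  constructor
  · refine MemLp.of_bound ((GU_meas h σ (ae_si hσ)).inner hσ.meas) (∑' j, b j) ?_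
    filter_upwards [ae_si hσ, hσ.unit] with x hx hu
    refine (abs_real_inner_le_norm _ _).trans ?_
    rw [hu, mul_one]
    exact GU_bd h x hx
  · have l1 := lim_fl h hσ (a := fun _ => (1 : ℝ)) (integrable_const 1)
    simp only [one_mul] at l1
    refine tendsto_nhds_unique l1 ?_
    refine (tendsto_const_nhds (x := (0 : ℝ))).congr (fun n => ?_)
    rw [← hσ.gg (gr (PS φ n)) ((Pool.Agent.H29.IC.contDiff_gr (ps_sm h n)).of_le (by norm_cast))
      (gr_cs (ps_cs h n))]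
    rw [setIntegral_congr_fun (g := fun _ => (0 : ℝ)) h.dom.op.measurableSet]
    · simp
    · intro x hx
      show dv (gr (PS φ n)) x = 0
      rw [lap_dv (ps_sm h n)]
      exact ps_lap h n x (subset_closure hx)

theorem green_n (h : Dat Ω V b φ) (n : ℕ) {σ : Measure E} {ν : E → E} (hσ : IsSurf Ω σ ν)
    (S t : Set E) (χ : E → ℝ) (ψ : E → ℝ) (G : E → E) (κ : E → ℝ)
    (hψ : HS1 Ω S σ ν ψ G κ) (ht : IsCompact t) (htO : t ⊆ Ω) (hχ : ContDiff ℝ ∞ χ)
    (hχ1 : ∀ x ∈ S, ∀ᶠ y in 𝓝 x, χ y = 1) (hχ0 : ∀ x ∉ t, χ x = 0)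
    (h0 : ∀ x ∈ t, ψ x = 0 ∧ G x = 0) :
    ∫ x in Ω, ⟪gr (PS φ n) x, G x⟫ = ∫ x, κ x * ⟪gr (PS φ n) x, ν x⟫ ∂σ := by
  have hgs := Pool.Agent.H29.IC.contDiff_gr (ps_sm h n)
  have hXs : ContDiff ℝ ∞ (fun x => (1 - χ x) • gr (PS φ n) x) := (contDiff_const.sub hχ).smul hgs
  have hXc : HasCompactSupport (fun x => (1 - χ x) • gr (PS φ n) x) := by
    refine HasCompactSupport.intro (K := tsupport (gr (PS φ n))) (gr_cs (ps_cs h n)) (fun x hx => ?_)
    rw [image_eq_zero_of_notMem_tsupport hx, smul_zero]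
  have hXd : Disjoint (tsupport (fun x => (1 - χ x) • gr (PS φ n) x)) S := by
    rw [Set.disjoint_left]
    intro x hx hxS
    have e1 : (fun x => (1 - χ x) • gr (PS φ n) x) =ᶠ[𝓝 x] 0 := by
      filter_upwards [hχ1 x hxS] with y hy
      rw [hy, sub_self, zero_smul, Pi.zero_apply]
    exact (notMem_tsupport_iff_eventuallyEq.mpr e1) hx
  have key := hψ.tr _ hXs hXc hXd
  have hXt : ∀ x ∉ t, (fun x => (1 - χ x) • gr (PS φ n) x) =ᶠ[𝓝 x] gr (PS φ n) := by
    intro x hx
    filter_upwards [ht.isClosed.isOpen_compl.mem_nhds hx] with y hy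
    rw [hχ0 y hy, sub_zero, one_smul]
  have e1 : ∫ x in Ω, (ψ x * dv (fun x => (1 - χ x) • gr (PS φ n) x) x
      + ⟪G x, (1 - χ x) • gr (PS φ n) x⟫) = ∫ x in Ω, ⟪gr (PS φ n) x, G x⟫ := by
    refine setIntegral_congr_fun h.dom.op.measurableSet (fun x hx => ?_)
    show ψ x * dv (fun x => (1 - χ x) • gr (PS φ n) x) x
      + ⟪G x, (1 - χ x) • gr (PS φ n) x⟫ = ⟪gr (PS φ n) x, G x⟫
    by_cases hxt : x ∈ t
    · have := h0 x hxt
      rw [this.1, this.2, inner_zero_left, inner_zero_right, zero_mul, add_zero]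
    · have a1 : dv (fun x => (1 - χ x) • gr (PS φ n) x) x = 0 := by
        have a2 : dv (fun x => (1 - χ x) • gr (PS φ n) x) x = dv (gr (PS φ n)) x := by
          unfold dv
          rw [(hXt x hxt).fderiv_eq (𝕜 := ℝ)]
        rw [a2, lap_dv (ps_sm h n), ps_lap h n x (subset_closure hx)]
      rw [a1, hχ0 x hxt, sub_zero, one_smul, mul_zero, zero_add, real_inner_comm]
  have e2 : ∫ x, κ x * ⟪(1 - χ x) • gr (PS φ n) x, ν x⟫ ∂σ
      = ∫ x, κ x * ⟪gr (PS φ n) x, ν x⟫ ∂σ := by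
    refine integral_congr_ae ?_
    filter_upwards [Pool.Agent.H29.IC.ae_frontier hσ] with x hx
    have hxt : x ∉ t := by
      intro hxt
      have h5 : x ∈ Ω := htO hxt
      rw [h.dom.op.frontier_eq] at hx
      exact hx.2 h5
    rw [hχ0 x hxt, sub_zero, one_smul]
  exact e1.symm.trans (key.trans e2)

theorem green (h : Dat Ω V b φ) {σ : Measure E} {ν : E → E} (hσ : IsSurf Ω σ ν) (S : Set E)
    (ψ : E → ℝ) (G : E → E) (κ : E → ℝ) (hS : IsCompact S) (hSO : S ⊆ Ω)
    (hψ : HS1 Ω S σ ν ψ G κ) (W : Set E) (hW : IsOpen W) (hSW : S ⊆ W)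
    (h0 : ∀ x ∈ W, ψ x = 0 ∧ G x = 0) :
    ∫ x in Ω, ⟪∑' j, gr (V j) x, G x⟫ = ∫ x, κ x * ⟪∑' j, gr (V j) x, ν x⟫ ∂σ := by
  have hf1 := Pool.Agent.H29.IC.finite_restrict h.dom.bdd
  have hf2 := hσ.fin
  obtain ⟨χ, t, ht, htO, hχ, hχ1, hχ0⟩ := cutoff hS (hW.inter h.dom.op) (subset_inter hSW hSO)
  have l1 := lim_left h (a := fun _ => (0 : ℝ)) (X := G) (integrable_zero _ _ _)
    (Pool.Agent.H29.IC.int_of_L2 hψ.F2)
  simp only [mul_zero, zero_add] at l1
  have l2 := lim_fl h hσ (a := κ) (Pool.Agent.H29.IC.int_of_L2 hψ.t2)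
  refine tendsto_nhds_unique l1 (l2.congr (fun n => ?_))
  exact (green_n h n hσ S t χ ψ G κ hψ ht (fun x hx => (htO hx).2) hχ hχ1 hχ0
    (fun x hx => h0 x (htO hx).1)).symm

end NSR

open NSR in
theorem nsr (hWYL : T_WYL) : T_NSR := by
  intro Ω σ ν V c b hO hσ hc hb hV hbd
  have hK : IsCompact (closure Ω) := hO.bdd.isCompact_closure
  have hopen : ∀ j, IsOpen {x | infDist x (closure Ω) < c j} := fun j =>
    isOpen_lt (continuous_infDist_pt _) continuous_const
  have hsub : ∀ j, closure Ω ⊆ {x | infDist x (closure Ω) < c j} := by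
    intro j x hx
    rw [mem_ofPred_eq, infDist_zero_of_mem hx]
    exact hc j
  choose φ hφs hφc hφn using fun j => ext_near hK (hopen j) (hsub j) (hV j).1
  have h : Dat Ω V b φ := by
    refine ⟨hO, hφs, hφc, hφn, ?_, hb, hbd⟩
    intro j x hx
    rw [lap_congr (hφn j x hx)]
    exact (hV j).2 x (hsub j hx)
  exact ⟨harmU hWYL h, fun x hx => grad h x hx, GU_cont h, prof h hσ, fun S _ _ => hs h hσ S,
    fun S ψ G κ hS hSO hψ ⟨W, hW, hSW, h0⟩ => green h hσ S ψ G κ hS hSO hψ W hW hSW h0⟩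

end Pool.Agent.H32.IC
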